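import Pool.Agent.H82.LB.D5
import Pool.Agent.H15.LB.Har
import Pool.Agent.H73.LB.Zone

/-!
# D6: the energy lemma
-/

set_option autoImplicit false

namespace H82.LB

open Metric Real InnerProductSpace

section

variable {ι : Type*} [Fintype ι] [Nonempty ι] {z : ι → ℂ} {L : ℝ} (hz : ∀ i, ‖z i‖ ≤ 1)
    (hF : ∀ w : ℂ, ‖w‖ = 1 → ∏ i, ‖1 - w * starRingEnd ℂ (z i)‖ ≤ Real.exp L)

omit [Nonempty ι] in
include hz in
theorem V_mean {ρ : ℝ} (h0 : 0 ≤ ρ) (h1 : ρ < 1) :
    ∫ θ in (0 : ℝ)..2 * Real.pi, V z L (ρ * Complex.exp (θ * Complex.I)) = 2 * Real.pi * L :=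
  vv_circle_mean hz h0 h1

omit [Nonempty ι] in
include hz in
theorem V_cont {ρ : ℝ} (h0 : 0 ≤ ρ) (h1 : ρ < 1) :
    Continuous fun θ : ℝ => V z L (ρ * Complex.exp (θ * Complex.I)) :=
  vv_circle_cont hz h0 h1

open Classical in
include hz hF in
/-- the points with a stopping scale -/
theorem zone_part (hL : 0 ≤ L) :
    ∑ i ∈ Finset.univ.filter (fun i => 1 - ‖z i‖ ≤ dl z L (z i) ∧ (DD z L (z i)).Nonempty),
      dl z L (z i) ≤ 1421200 * L := by
  set N := Finset.univ.filter (fun i => 1 - ‖z i‖ ≤ dl z L (z i) ∧ (DD z L (z i)).Nonempty)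
    with hN
  have hcard : (0 : ℝ) < Fintype.card ι := by exact_mod_cast Fintype.card_pos
  have hNm : ∀ i ∈ N, 1 - ‖z i‖ ≤ dl z L (z i) ∧ (DD z L (z i)).Nonempty := by
    intro i hi
    rw [hN, Finset.mem_filter] at hi
    exact hi.2
  have hz0 : ∀ i ∈ N, z i ≠ 0 := by
    intro i hi h
    have h1 := (hNm i hi).1
    have h2 := dl_le z L (z i)
    rw [h, norm_zero] at h1
    rw [h] at h2
    linarith
  have hNN : (1 / 2 : ℝ) ^ NN ι ≤ 1 / 2 := by
    have := pow_le_pow_of_le_one (by norm_num : (0 : ℝ) ≤ 1 / 2) (by norm_num)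
      (show 1 ≤ NN ι from Nat.le_add_left _ _)
    rwa [pow_one] at this
  have hNN0 : (0 : ℝ) < (1 / 2 : ℝ) ^ NN ι := by positivity
  set R' : ℝ := 1 - (1 / 2 : ℝ) ^ NN ι with hR'
  have hR0 : 0 ≤ R' := by rw [hR']; linarith
  have hR1 : R' < 1 := by rw [hR']; linarith
  have he : ∀ i ∈ N, ‖z i / (‖z i‖ : ℂ)‖ = 1 := by
    intro i hi
    have h1 : 0 < ‖z i‖ := norm_pos_iff.2 (hz0 i hi)
    rw [norm_div, Complex.norm_real, norm_norm, div_self h1.ne']
  have hzs := H73.LB.zone_sum N (fun i => z i / (‖z i‖ : ℂ)) he (fun i => dl z L (z i))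
    (fun i _ => dl_pos z L (z i)) (fun i _ => by have := dl_le z L (z i); linarith)
    (fun θ : ℝ => V z L ((R' : ℂ) * Complex.exp (θ * Complex.I)))
    ((V_cont hz hR0 hR1).intervalIntegrable _ _)
    (fun θ => V_nonneg z L hz hF _ (by
      rw [norm_mul, Complex.norm_exp_ofReal_mul_I, mul_one, Complex.norm_real,
        Real.norm_of_nonneg hR0]
      exact hR1)) (L := L) (V_mean hz hR0 hR1).le (a := 1) (c := 1) (C := 113092)
    (d := Fintype.card ι) one_pos le_rfl one_pos (by norm_num) hcard ?_ ?_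
  · refine hzs.trans ?_
    have h1 := Real.pi_lt_d4
    have h2 : 4 * π * 113092 / (1 * 1) ≤ 1421200 := by
      rw [mul_one, div_one]
      linarith
    exact mul_le_mul_of_nonneg_right h2 hL
  · intro i hi θ hθ
    rw [one_mul] at hθ
    set δ := dl z L (z i) with hδ
    have hd0 : 0 < δ := dl_pos z L (z i)
    have hd1 : δ ≤ 1 / 2 := dl_le z L (z i)
    have hni := hz i
    obtain ⟨hi1, hi2⟩ := hNm i hi
    have h1 := T1 z L (z i) hi2
    rw [← hδ] at h1 hi1
    have hu : ‖Complex.exp (θ * Complex.I)‖ = 1 := Complex.norm_exp_ofReal_mul_I θ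
    have h2 := V_arc (L := L) hz hF (hz0 i hi) (hz i) hu hd0 (by linarith) hθ
    have hRle : (1 - δ) * ‖z i‖ ≤ R' := by
      have h3 : (1 / 2 : ℝ) ^ NN ι ≤ δ := dl_ge z L (z i)
      have h4 : (1 - δ) * ‖z i‖ ≤ (1 - δ) * 1 := mul_le_mul_of_nonneg_left hni (by linarith)
      rw [hR']
      linarith
    have hRnn : 0 ≤ (1 - δ) * ‖z i‖ := mul_nonneg (by linarith) (norm_nonneg _)
    have h3 := V_out (L := L) hz (u := Complex.exp (θ * Complex.I)) hu.le hRnn hRle hR1
    have h4 : 1 - (1 - δ) * ‖z i‖ ≤ 2 * δ := by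
      have h5 : (1 - δ) * (1 - δ) ≤ (1 - δ) * ‖z i‖ :=
        mul_le_mul_of_nonneg_left (by linarith) (by linarith)
      nlinarith
    have h5 : (Fintype.card ι : ℝ) * (1 - (1 - δ) * ‖z i‖) ≤ Fintype.card ι * (2 * δ) :=
      mul_le_mul_of_nonneg_left h4 hcard.le
    linarith
  · intro k hk
    set δ := dl z L (z k) with hδ
    have hd0 : 0 < δ := dl_pos z L (z k)
    have hd1 : δ ≤ 1 / 2 := dl_le z L (z k)
    obtain ⟨hk1, hk2⟩ := hNm k hk
    rw [← hδ] at hk1
    set M := N.filter (fun i => ‖z i / (‖z i‖ : ℂ) - z k / (‖z k‖ : ℂ)‖ ≤ 3 * 1 * δ ∧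
      dl z L (z i) ≤ 2 * δ) with hM
    have h1 : ∀ i ∈ M, 1 / (49 * δ) ≤ pf (1 - δ) (z k * starRingEnd ℂ (z i)) := by
      intro i hi
      rw [hM, Finset.mem_filter] at hi
      obtain ⟨hiN, hi1, hi2⟩ := hi
      exact pf_zone hz hd0 hd1 hk1 ((hNm i hiN).1.trans hi2) (hz0 k hk) (hz0 i hiN)
        (by rw [mul_one] at hi1; exact hi1)
    have h2 : (M.card : ℝ) * (1 / (49 * δ)) ≤ PS z δ (z k) := by
      calc (M.card : ℝ) * (1 / (49 * δ)) = ∑ _i ∈ M, 1 / (49 * δ) := by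
            rw [Finset.sum_const, nsmul_eq_mul]
        _ ≤ ∑ i ∈ M, pf (1 - δ) (z k * starRingEnd ℂ (z i)) := Finset.sum_le_sum h1
        _ ≤ PS z δ (z k) := Finset.sum_le_sum_of_subset_of_nonneg (Finset.subset_univ _)
            fun i _ _ => pf_nonneg (by linarith) (by linarith) (mul_conj_le (hz k) (hz i))
    have h3 := T4 hz hF (hz k)
    rw [← hδ] at h3
    have h4 := h2.trans h3
    rw [mul_one_div, div_le_iff₀ (by positivity)] at h4
    linarith

open Classical in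
include hz hF in
/-- the sum of the scales of the near points -/
theorem near_sum (hL : 0 ≤ L) :
    ∑ i ∈ Finset.univ.filter (fun i => 1 - ‖z i‖ ≤ dl z L (z i)), dl z L (z i) ≤
      1500000 * (1 + L) := by
  have h1 := zone_part hz hF hL
  rw [← Finset.sum_filter_add_sum_filter_not
    (Finset.univ.filter (fun i => 1 - ‖z i‖ ≤ dl z L (z i)))
    (fun i => (DD z L (z i)).Nonempty)]
  rw [Finset.filter_filter, Finset.filter_filter]
  have h2 : ∑ i ∈ Finset.univ.filter
      (fun i => 1 - ‖z i‖ ≤ dl z L (z i) ∧ ¬ (DD z L (z i)).Nonempty), dl z L (z i) ≤ 1 := by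
    calc ∑ i ∈ Finset.univ.filter
          (fun i => 1 - ‖z i‖ ≤ dl z L (z i) ∧ ¬ (DD z L (z i)).Nonempty), dl z L (z i)
        = ∑ i ∈ Finset.univ.filter
          (fun i => 1 - ‖z i‖ ≤ dl z L (z i) ∧ ¬ (DD z L (z i)).Nonempty), (1 / 2 : ℝ) ^ NN ι := by
          refine Finset.sum_congr rfl fun i hi => ?_
          have h3 := (Finset.mem_filter.1 hi).2.2
          unfold dl kk
          rw [dif_neg h3]
      _ ≤ ∑ _i : ι, (1 / 2 : ℝ) ^ NN ι :=
          Finset.sum_le_sum_of_subset_of_nonneg (Finset.subset_univ _)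
            fun i _ _ => by positivity
      _ ≤ 1 := by
          rw [Finset.sum_const, Finset.card_univ, nsmul_eq_mul, mul_comm]
          exact NN_card
  linarith

open Classical in
/-- the radii -/
noncomputable def rr (z : ι → ℂ) (L ε : ℝ) (i : ι) : ℝ :=
  if 1 - ‖z i‖ ≤ dl z L (z i) then 1 - ε * dl z L (z i) else 1

omit [Nonempty ι] in
theorem rr_le {z : ι → ℂ} {L ε : ℝ} (h0 : 0 < ε) (i : ι) : rr z L ε i ≤ 1 := by
  unfold rr
  have := dl_pos z L (z i)
  split_ifs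
  · nlinarith
  · exact le_rfl

omit [Nonempty ι] in
theorem rr_ge {z : ι → ℂ} {L ε : ℝ} (h0 : 0 < ε) (h1 : ε ≤ 1 / 2) (i : ι) :
    1 / 2 ≤ rr z L ε i := by
  unfold rr
  have := dl_pos z L (z i)
  have := dl_le z L (z i)
  split_ifs
  · nlinarith
  · norm_num

omit [Nonempty ι] in
include hz in
theorem rr_lt {ε : ℝ} (h0 : 0 < ε) (h1 : ε ≤ 1 / 2) (i : ι) :
    ‖(rr z L ε i : ℂ) * z i‖ < 1 := by
  have h2 := rr_ge (z := z) (L := L) h0 h1 i
  have h3 := rr_le (z := z) (L := L) (ε := ε) h0 i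
  rw [norm_mul, Complex.norm_real, Real.norm_of_nonneg (by linarith)]
  have hd := dl_pos z L (z i)
  have hi := hz i
  have hn := norm_nonneg (z i)
  by_cases h : 1 - ‖z i‖ ≤ dl z L (z i)
  · have h4 : rr z L ε i = 1 - ε * dl z L (z i) := by
      unfold rr
      rw [if_pos h]
    have h5 : 0 < ε * dl z L (z i) := by positivity
    nlinarith
  · push Not at h
    nlinarith

open Classical in
omit [Nonempty ι] in
theorem rr_sum (z : ι → ℂ) (L ε : ℝ) : ∑ i, (1 - rr z L ε i) =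
    ε * ∑ i ∈ Finset.univ.filter (fun i => 1 - ‖z i‖ ≤ dl z L (z i)), dl z L (z i) := by
  rw [Finset.mul_sum, Finset.sum_filter]
  refine Finset.sum_congr rfl fun i _ => ?_
  unfold rr
  split_ifs
  · ring
  · ring

omit [Nonempty ι] in
include hz in
/-- the energy in terms of `V` -/
theorem energy_V {r : ι → ℝ} (h0 : ∀ i, 0 ≤ r i) (h1 : ∀ i, r i ≤ 1)
    (h2 : ∀ i, ‖(r i : ℂ) * z i‖ < 1) :
    ∑ i, ∑ j, kr (r i * z i) (r j * z j) ≤
      ∑ i, (V z L (r i * z i) - L) + Fintype.card ι * ∑ j, (1 - r j) := by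
  have h3 : ∀ i, ∑ j, kr (r i * z i) (r j * z j) ≤
      (V z L (r i * z i) - L) + ∑ j, (1 - r j) := by
    intro i
    have h4 : ∀ j, kr (r i * z i) (r j * z j) ≤
        -Real.log ‖1 - r i * z i * starRingEnd ℂ (z j)‖ + (1 - r j) := by
      intro j
      have hpos := one_sub_norm (h2 i) (hz j)
      have hw : ‖(r i : ℂ) * z i * starRingEnd ℂ (z j)‖ ≤ 1 := mul_conj_le (h2 i).le (hz j)
      have h5 := half_le hw (h0 j) (h1 j)
      have hrj := h0 j
      have hrj1 := h1 j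
      have h6 := Real.log_le_log (by positivity) h5
      rw [Real.log_mul (by positivity) hpos.ne'] at h6
      have h7 : -(1 - r j) ≤ Real.log ((1 + r j) / 2) := by
        have h8 := Real.one_sub_inv_le_log_of_pos (show 0 < (1 + r j) / 2 by positivity)
        have h9 : ((1 + r j) / 2)⁻¹ ≤ 1 + (1 - r j) := by
          rw [inv_le_iff_one_le_mul₀ (by positivity)]
          nlinarith
        linarith
      unfold kr
      have e : (1 : ℂ) - r i * z i * starRingEnd ℂ (r j * z j) =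
          1 - (r j : ℂ) * (r i * z i * starRingEnd ℂ (z j)) := by
        rw [map_mul, Complex.conj_ofReal]
        ring
      rw [e]
      linarith
    calc ∑ j, kr (r i * z i) (r j * z j)
        ≤ ∑ j, (-Real.log ‖1 - r i * z i * starRingEnd ℂ (z j)‖ + (1 - r j)) :=
          Finset.sum_le_sum fun j _ => h4 j
      _ = (V z L (r i * z i) - L) + ∑ j, (1 - r j) := by
          rw [Finset.sum_add_distrib, Finset.sum_neg_distrib]
          unfold V
          ring
  calc ∑ i, ∑ j, kr (r i * z i) (r j * z j)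
      ≤ ∑ i, ((V z L (r i * z i) - L) + ∑ j, (1 - r j)) := Finset.sum_le_sum fun i _ => h3 i
    _ = _ := by
      rw [Finset.sum_add_distrib, Finset.sum_const, Finset.card_univ, nsmul_eq_mul]

open Classical in
include hz hF in
theorem V_sum (hL : 0 ≤ L) {ε : ℝ} (h0 : 0 < ε) (h1 : ε ≤ 1 / 2) :
    ∑ i, V z L (rr z L ε i * z i) ≤
      1500000 * (1 + L) * Fintype.card ι * (96 + 6924 * Real.log (1 + 1 / ε)) +
      Fintype.card ι * (3 * L) + 216 * (1 + L) * Fintype.card ι * ∑ i, (1 - ‖z i‖) := by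
  have hlog : 0 ≤ Real.log (1 + 1 / ε) := by
    apply Real.log_nonneg
    have : 0 < 1 / ε := by positivity
    linarith
  have hcard : (1 : ℝ) ≤ Fintype.card ι := by exact_mod_cast Fintype.card_pos
  set Λ : ℝ := 96 + 6924 * Real.log (1 + 1 / ε) with hΛ
  have hΛ0 : 0 ≤ Λ := by positivity
  have h2 : ∀ i, V z L (rr z L ε i * z i) ≤
      (if 1 - ‖z i‖ ≤ dl z L (z i) then dl z L (z i) else 0) * (Fintype.card ι * Λ) + 3 * L +
      216 * (1 + L) * Fintype.card ι * (1 - ‖z i‖) := by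
    intro i
    have hi : 0 ≤ 1 - ‖z i‖ := by linarith [hz i]
    by_cases h : 1 - ‖z i‖ ≤ dl z L (z i)
    · have h3 : rr z L ε i = 1 - ε * dl z L (z i) := by
        unfold rr
        rw [if_pos h]
      rw [h3, if_pos h]
      have h4 := T_near hz hF hL (hz i) h0 h1
      have h5 : 0 ≤ 216 * (1 + L) * Fintype.card ι * (1 - ‖z i‖) := by positivity
      linarith
    · have h3 : rr z L ε i = 1 := by
        unfold rr
        rw [if_neg h]
      rw [h3, if_neg h, Complex.ofReal_one, one_mul, zero_mul]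
      push Not at h
      have h4 := T_far hz hF hL h
      have h5 : 6 * L * (1 - ‖z i‖) ≤ 216 * L * Fintype.card ι * (1 - ‖z i‖) := by
        apply mul_le_mul_of_nonneg_right _ hi
        nlinarith
      have e : 216 * (1 + L) * Fintype.card ι * (1 - ‖z i‖) =
        216 * (1 - ‖z i‖) * Fintype.card ι + 216 * L * Fintype.card ι * (1 - ‖z i‖) := by ring
      linarith
  refine (Finset.sum_le_sum fun i _ => h2 i).trans ?_
  have e3 : ∑ i, 216 * (1 + L) * (Fintype.card ι : ℝ) * (1 - ‖z i‖) =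
      216 * (1 + L) * Fintype.card ι * ∑ i, (1 - ‖z i‖) := by
    rw [Finset.mul_sum]
  rw [Finset.sum_add_distrib, Finset.sum_add_distrib, e3, ← Finset.sum_mul,
    Finset.sum_const, Finset.card_univ, nsmul_eq_mul, ← Finset.sum_filter]
  have h3 := mul_le_mul_of_nonneg_right (near_sum hz hF hL)
    (show 0 ≤ Fintype.card ι * Λ by positivity)
  linarith

include hz hF in
theorem energy_C (hL : 0 ≤ L) {ε : ℝ} (h0 : 0 < ε) (h1 : ε ≤ 1 / 2) :
    ∑ i, ∑ j, kr (rr z L ε i * z i) (rr z L ε j * z j) ≤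
      30000000000 * Fintype.card ι * (1 + L) * (Real.log (1 / ε) + ∑ i, (1 - ‖z i‖)) := by
  classical
  have hcard : (1 : ℝ) ≤ Fintype.card ι := by exact_mod_cast Fintype.card_pos
  have h2 := energy_V (L := L) hz (r := rr z L ε)
    (fun i => by have := rr_ge (z := z) (L := L) h0 h1 i; linarith)
    (fun i => rr_le h0 i) (fun i => rr_lt hz h0 h1 i)
  rw [Finset.sum_sub_distrib, Finset.sum_const, Finset.card_univ, nsmul_eq_mul] at h2
  have h3 := V_sum hz hF hL h0 h1
  have h4 : ∑ j, (1 - rr z L ε j) ≤ ε * (1500000 * (1 + L)) := by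
    rw [rr_sum]
    exact mul_le_mul_of_nonneg_left (near_sum hz hF hL) h0.le
  have hlog : Real.log (1 + 1 / ε) ≤ Real.log 2 + Real.log (1 / ε) := by
    rw [← Real.log_mul (by norm_num) (by positivity)]
    apply Real.log_le_log (by positivity)
    have : 1 ≤ 1 / ε := by
      rw [le_div_iff₀ h0]
      linarith
    linarith
  have hlog2 : Real.log 2 ≤ Real.log (1 / ε) := by
    apply Real.log_le_log (by norm_num)
    rw [le_div_iff₀ h0]
    linarith
  have hl2 := Real.log_two_gt_d9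
  set l := Real.log (1 / ε) with hl
  set S := ∑ i, (1 - ‖z i‖) with hS
  have hS0 : 0 ≤ S := Finset.sum_nonneg fun i _ => by linarith [hz i]
  set d : ℝ := (Fintype.card ι : ℝ) with hd
  have hl69 : 0.69 ≤ l := by linarith
  have h5 : 1500000 * (1 + L) * d * (96 + 6924 * Real.log (1 + 1 / ε)) ≤
      1500000 * (1 + L) * d * (14000 * l) := by
    apply mul_le_mul_of_nonneg_left _ (by positivity)
    linarith
  have h6 : d * ∑ j, (1 - rr z L ε j) ≤ d * (1 / 2 * (1500000 * (1 + L))) := by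
    apply mul_le_mul_of_nonneg_left _ (by positivity)
    refine h4.trans ?_
    apply mul_le_mul_of_nonneg_right h1 (by positivity)
  have h7 : d * (1 / 2 * (1500000 * (1 + L))) ≤ 1100000 * (d * (1 + L) * l) := by
    have : d * (1 + L) * 0.69 ≤ d * (1 + L) * l := mul_le_mul_of_nonneg_left hl69 (by positivity)
    nlinarith
  have h8 : d * (3 * L) ≤ 5 * (d * (1 + L) * l) := by
    have : d * (1 + L) * 0.69 ≤ d * (1 + L) * l := mul_le_mul_of_nonneg_left hl69 (by positivity)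
    have : 0 ≤ d * L := by positivity
    nlinarith
  have h9 : 0 ≤ d * L := by positivity
  have h10 : 0 ≤ d * (1 + L) * S := by positivity
  have h11 : 0 ≤ d * (1 + L) * l := by positivity
  linarith

end

/-- **block D** -/
theorem energy_lemma : ∃ C : ℝ, 1 ≤ C ∧ ∀ {ι : Type} [Fintype ι] [Nonempty ι] (z : ι → ℂ)
    (L ε : ℝ), (∀ i, ‖z i‖ ≤ 1) → 0 ≤ L → 0 < ε → ε ≤ 1 / 2 →
    (∀ w : ℂ, ‖w‖ = 1 → ∏ i, ‖1 - w * starRingEnd ℂ (z i)‖ ≤ Real.exp L) →
    ∃ r : ι → ℝ, (∀ i, 1 / 2 ≤ r i) ∧ (∀ i, r i ≤ 1) ∧ (∀ i, ‖(r i : ℂ) * z i‖ < 1) ∧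
      ∑ i, (1 - r i) ≤ C * ε * (1 + L) ∧
      ∑ i, ∑ j, kr (r i * z i) (r j * z j) ≤
        C * Fintype.card ι * (1 + L) * (Real.log (1 / ε) + ∑ i, (1 - ‖z i‖)) := by
  refine ⟨30000000000, by norm_num, fun {ι} _ _ z L ε hz hL h0 h1 hF =>
    ⟨rr z L ε, fun i => rr_ge h0 h1 i, fun i => rr_le h0 i, fun i => rr_lt hz h0 h1 i, ?_,
      energy_C hz hF hL h0 h1⟩⟩
  classical
  rw [rr_sum]
  have h2 := mul_le_mul_of_nonneg_left (near_sum hz hF hL) h0.le
  have h3 : 0 ≤ ε * (1 + L) := by positivity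
  linarith

end H82.LB
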