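import Pool.Agent.H82.LB.W3
import Pool.Agent.H15.LB.Zone2

/-!
# W4: the pointwise form of the energy lemma, in terms of the mean of `log⁺ |F|`
-/

set_option autoImplicit false

namespace H82.LB

open Metric Real InnerProductSpace

section

variable {ι : Type*} [Fintype ι] [Nonempty ι] {z : ι → ℂ} (hz : ∀ i, ‖z i‖ ≤ 1)

open Classical in
include hz in
/-- the points with a stopping scale -/
theorem zone_partW :
    ∑ i ∈ Finset.univ.filter (fun i => 1 - ‖z i‖ ≤ dw z (z i) ∧ (DW z (z i)).Nonempty),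
      dw z (z i) ≤ 50000 * 188356 / 2 * WW z 0 := by
  set N := Finset.univ.filter (fun i => 1 - ‖z i‖ ≤ dw z (z i) ∧ (DW z (z i)).Nonempty)
    with hN
  have hcard : (0 : ℝ) < Fintype.card ι := by exact_mod_cast Fintype.card_pos
  have hNm : ∀ i ∈ N, 1 - ‖z i‖ ≤ dw z (z i) ∧ (DW z (z i)).Nonempty := by
    intro i hi
    rw [hN, Finset.mem_filter] at hi
    exact hi.2
  have hz0 : ∀ i ∈ N, z i ≠ 0 := by
    intro i hi h
    have h1 := (hNm i hi).1
    have h2 := dw_le z (z i)
    rw [h, norm_zero] at h1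
    rw [h] at h2
    linarith
  have he : ∀ i ∈ N, ‖z i / (‖z i‖ : ℂ)‖ = 1 := by
    intro i hi
    have h1 : 0 < ‖z i‖ := norm_pos_iff.2 (hz0 i hi)
    rw [norm_div, Complex.norm_real, norm_norm, div_self h1.ne']
  refine H15.LB.zone_sum2 N (fun i => z i / (‖z i‖ : ℂ)) he (fun i => dw z (z i))
    (fun i _ => dw_pos z (z i)) (fun i _ => by have := dw_le z (z i); linarith)
    (gb z) (gb_int z) (fun θ => abs_nonneg _) (gb_mean z).le (c := 2) (C := 188356)
    (D := Fintype.card ι) two_pos (by norm_num) hcard ?_ ?_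
  · intro i hi
    set δ := dw z (z i) with hδ
    have hd0 : 0 < δ := dw_pos z (z i)
    have hd1 : δ ≤ 1 / 2 := dw_le z (z i)
    obtain ⟨hi1, hi2⟩ := hNm i hi
    have h1 := Q1 z (z i) hi2
    rw [← hδ] at h1 hi1
    have h2 := WW_le_int z (hz0 i hi) (hz i) hd0 hd1 hi1
    set I := ∫ θ in (0 : ℝ)..2 * π,
        gb z θ / (δ + ‖Complex.exp (θ * Complex.I) - z i / ‖z i‖‖) ^ 2 with hI
    have h3 : 12 * δ * Fintype.card ι ≤ 36 * δ * ((2 * π)⁻¹ * I) := h1.trans h2
    have h4 : (Fintype.card ι : ℝ) ≤ 3 * ((2 * π)⁻¹ * I) := by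
      have h5 : 12 * δ * (Fintype.card ι : ℝ) ≤ 12 * δ * (3 * ((2 * π)⁻¹ * I)) := by linarith
      exact le_of_mul_le_mul_left h5 (by positivity)
    have hpi := Real.pi_gt_three
    have h6 : (2 * π) * (Fintype.card ι : ℝ) ≤ 3 * I := by
      have h7 := mul_le_mul_of_nonneg_left h4 (show 0 ≤ 2 * π by positivity)
      have e : 2 * π * (3 * ((2 * π)⁻¹ * I)) = 3 * I := by
        field_simp
      rwa [e] at h7
    nlinarith
  · intro k hk
    set δ := dw z (z k) with hδ
    have hd0 : 0 < δ := dw_pos z (z k)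
    have hd1 : δ ≤ 1 / 2 := dw_le z (z k)
    obtain ⟨hk1, hk2⟩ := hNm k hk
    rw [← hδ] at hk1
    set M := N.filter (fun i => ‖z i / (‖z i‖ : ℂ) - z k / (‖z k‖ : ℂ)‖ ≤ 3 * δ ∧
      dw z (z i) ≤ 2 * δ) with hM
    have h1 : ∀ i ∈ M, 1 / (49 * δ) ≤ pf (1 - δ) (z k * starRingEnd ℂ (z i)) := by
      intro i hi
      rw [hM, Finset.mem_filter] at hi
      obtain ⟨hiN, hi1, hi2⟩ := hi
      exact pf_zone hz hd0 hd1 hk1 ((hNm i hiN).1.trans hi2) (hz0 k hk) (hz0 i hiN) hi1
    have h2 : (M.card : ℝ) * (1 / (49 * δ)) ≤ PS z δ (z k) := by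
      calc (M.card : ℝ) * (1 / (49 * δ)) = ∑ _i ∈ M, 1 / (49 * δ) := by
            rw [Finset.sum_const, nsmul_eq_mul]
        _ ≤ ∑ i ∈ M, pf (1 - δ) (z k * starRingEnd ℂ (z i)) := Finset.sum_le_sum h1
        _ ≤ PS z δ (z k) := Finset.sum_le_sum_of_subset_of_nonneg (Finset.subset_univ _)
            fun i _ _ => pf_nonneg (by linarith) (by linarith) (mul_conj_le (hz k) (hz i))
    have h3 := Q4 hz (hz k)
    rw [← hδ] at h3
    have h4 := h2.trans h3
    rw [mul_one_div, div_le_iff₀ (by positivity)] at h4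
    linarith

open Classical in
/-- the scales of the points -/
noncomputable def ds (z : ι → ℂ) (i : ι) : ℝ :=
  if 1 - ‖z i‖ ≤ dw z (z i) then dw z (z i) else (1 / 2 : ℝ) ^ NN ι

omit [Nonempty ι] in
theorem ds_pos (z : ι → ℂ) (i : ι) : 0 < ds z i := by
  unfold ds
  split_ifs
  · exact dw_pos _ _
  · positivity

omit [Nonempty ι] in
theorem ds_le (z : ι → ℂ) (i : ι) : ds z i ≤ 1 / 2 := by
  unfold ds
  split_ifs
  · exact dw_le _ _
  · have := pow_le_pow_of_le_one (by norm_num : (0 : ℝ) ≤ 1 / 2) (by norm_num)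
      (show 1 ≤ NN ι from Nat.le_add_left _ _)
    rwa [pow_one] at this

open Classical in
include hz in
theorem ds_sum : ∑ i, ds z i ≤ 50000 * 188356 / 2 * WW z 0 + 1 := by
  have h1 := zone_partW hz
  rw [Finset.sum_filter] at h1
  have h2 : ∀ i, ds z i ≤ (if 1 - ‖z i‖ ≤ dw z (z i) ∧ (DW z (z i)).Nonempty then dw z (z i)
      else 0) + (1 / 2 : ℝ) ^ NN ι := by
    intro i
    have hp : (0 : ℝ) < (1 / 2 : ℝ) ^ NN ι := by positivity
    unfold ds
    by_cases h : 1 - ‖z i‖ ≤ dw z (z i)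
    · rw [if_pos h]
      by_cases h' : (DW z (z i)).Nonempty
      · rw [if_pos ⟨h, h'⟩]
        linarith
      · rw [if_neg (fun hh => h' hh.2)]
        unfold dw kw
        rw [dif_neg h', zero_add]
    · rw [if_neg h, if_neg (fun hh => h hh.1), zero_add]
  refine (Finset.sum_le_sum fun i _ => h2 i).trans ?_
  rw [Finset.sum_add_distrib, Finset.sum_const, Finset.card_univ, nsmul_eq_mul]
  have h3 := NN_card (ι := ι)
  linarith

omit [Nonempty ι] in
include hz in
theorem ds_pt (i : ι) {s : ℝ} (hs0 : 0 < s) (hs1 : s ≤ 1 / 2) :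
    -hs z ((1 - s : ℝ) * z i) ≤
      12000 * Fintype.card ι * (s + (1 - ‖z i‖) + ds z i * Real.log (2 + ds z i / s)) := by
  have hc : (0 : ℝ) ≤ Fintype.card ι := Nat.cast_nonneg _
  have hi := hz i
  have hni := norm_nonneg (z i)
  have hds := ds_pos z i
  have hlog : 0 ≤ Real.log (2 + ds z i / s) := by
    apply Real.log_nonneg
    have : 0 < ds z i / s := by positivity
    linarith
  have hX : 0 ≤ ds z i * Real.log (2 + ds z i / s) := by positivity
  have hfin : ∀ τ : ℝ, τ ≤ s + (1 - ‖z i‖) →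
      216 * τ * Fintype.card ι ≤ 12000 * Fintype.card ι *
        (s + (1 - ‖z i‖) + ds z i * Real.log (2 + ds z i / s)) := by
    intro τ hτ
    have h1 : 216 * τ * Fintype.card ι ≤ 216 * (s + (1 - ‖z i‖)) * Fintype.card ι := by
      gcongr
    have h2 : 0 ≤ (s + (1 - ‖z i‖)) * Fintype.card ι := by
      have : 0 ≤ s + (1 - ‖z i‖) := by linarith
      positivity
    have h3 : 0 ≤ Fintype.card ι * (ds z i * Real.log (2 + ds z i / s)) := by positivity
    linarith
  by_cases h : 1 - ‖z i‖ ≤ dw z (z i)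
  · rcases le_or_gt s (dw z (z i)) with h' | h'
    · have e : ds z i = dw z (z i) := by
        unfold ds
        rw [if_pos h]
      have h1 := Q_near hz hi hs0 h'
      rw [← e] at h1 h'
      refine h1.trans ?_
      have h3 : 1 ≤ ds z i / s := by
        rw [le_div_iff₀ hs0]
        linarith
      have h4 : Real.log (1 + ds z i / s) ≤ Real.log (2 + ds z i / s) :=
        Real.log_le_log (by linarith) (by linarith)
      have h5 : 1 ≤ Real.log (2 + ds z i / s) := by
        rw [Real.le_log_iff_exp_le (by linarith)]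
        have := Real.exp_one_lt_d9
        linarith
      have h6 : ds z i * Fintype.card ι * (96 + 11532 * Real.log (1 + ds z i / s)) ≤
          ds z i * Fintype.card ι * (12000 * Real.log (2 + ds z i / s)) := by
        apply mul_le_mul_of_nonneg_left _ (by positivity)
        linarith
      have h7 : 0 ≤ (s + (1 - ‖z i‖)) * Fintype.card ι := by
        have : 0 ≤ s + (1 - ‖z i‖) := by linarith
        positivity
      linarith
    · refine (Q_above hz hi hs0 hs1 le_rfl (by linarith) (by nlinarith) h').trans ?_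
      exact hfin s (by linarith)
  · push Not at h
    refine (Q_above hz hi (τ := max s (1 - ‖z i‖)) hs0 hs1 (le_max_left _ _) (le_max_right _ _)
      ?_ (lt_of_lt_of_le h (le_max_right _ _))).trans ?_
    · apply max_le
      · nlinarith
      · nlinarith
    · exact hfin _ (max_le (by linarith) (by linarith))

end

/-- **the pointwise form of the energy lemma**: `L` bounds the mean of `log⁺ |F|` on the unit
circle, `F(w) = ∏ (1 - w \bar z_i)` -/
theorem energy_pt : ∃ C : ℝ, 1 ≤ C ∧ ∀ {ι : Type} [Fintype ι] [Nonempty ι] (z : ι → ℂ)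
    (L : ℝ), (∀ i, ‖z i‖ ≤ 1) →
    Real.circleAverage (fun w => Real.posLog (∏ i, ‖1 - w * starRingEnd ℂ (z i)‖)) 0 1 ≤ L →
    ∃ δ : ι → ℝ, (∀ i, 0 < δ i) ∧ (∀ i, δ i ≤ 1 / 2) ∧ ∑ i, δ i ≤ C * (1 + L) ∧
      ∀ i, ∀ s : ℝ, 0 < s → s ≤ 1 / 2 →
        ∑ j, kr ((1 - s : ℝ) * z i) (z j) ≤
          C * Fintype.card ι * (s + (1 - ‖z i‖) + δ i * Real.log (2 + δ i / s)) := by
  refine ⟨50000 * 188356, by norm_num, fun {ι} _ _ z L hz hF => ⟨ds z, ds_pos z, ds_le z, ?_, ?_⟩⟩
  · have h1 := ds_sum hz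
    have h2 := ww_zero_le hz hF
    linarith
  · intro i s h0 h1
    have h2 := ds_pt hz i h0 h1
    have e : ∑ j, kr ((1 - s : ℝ) * z i) (z j) = -hs z ((1 - s : ℝ) * z i) := by
      unfold kr hs
      rw [Finset.sum_neg_distrib]
    rw [e]
    refine h2.trans ?_
    have hi := hz i
    have hds := ds_pos z i
    have hlog : 0 ≤ Real.log (2 + ds z i / s) := by
      apply Real.log_nonneg
      have : 0 < ds z i / s := by positivity
      linarith
    have h3 : 0 ≤ s + (1 - ‖z i‖) + ds z i * Real.log (2 + ds z i / s) := by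
      have : 0 ≤ ds z i * Real.log (2 + ds z i / s) := by positivity
      linarith
    apply mul_le_mul_of_nonneg_right _ h3
    gcongr
    norm_num

/-- the mean of `log⁺ |F|` is at most `L` if `|F| ≤ exp L` on the circle -/
theorem mean_posLog_le {ι : Type*} [Fintype ι] (z : ι → ℂ) {L : ℝ} (hL : 0 ≤ L)
    (hF : ∀ w : ℂ, ‖w‖ = 1 → ∏ i, ‖1 - w * starRingEnd ℂ (z i)‖ ≤ Real.exp L) :
    Real.circleAverage (fun w => Real.posLog (∏ i, ‖1 - w * starRingEnd ℂ (z i)‖)) 0 1 ≤ L := by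
  have hmer : MeromorphicOn (fun w : ℂ => ∏ i, (1 - w * starRingEnd ℂ (z i))) (sphere 0 |1|) := by
    apply AnalyticOnNhd.meromorphicOn
    intro x _
    fun_prop
  have hpint := hmer.circleIntegrable_posLog_norm
  have e0 : (fun w : ℂ => Real.posLog (∏ i, ‖1 - w * starRingEnd ℂ (z i)‖)) =
      fun w : ℂ => Real.posLog ‖∏ i, (1 - w * starRingEnd ℂ (z i))‖ := by
    ext w
    rw [norm_prod]
  rw [e0]
  apply circleAverage_mono_on_of_le_circle hpint
  intro w hw
  rw [abs_one] at hw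
  have hw1 : ‖w‖ = 1 := by simpa using hw
  have h1 := hF w hw1
  rw [← norm_prod] at h1
  have h2 := Real.posLog_le_posLog (norm_nonneg _) h1
  refine h2.trans (le_of_eq ?_)
  rw [Real.posLog_eq_log (by rw [abs_of_pos (Real.exp_pos L)]; exact Real.one_le_exp hL),
    Real.log_exp]

end H82.LB
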