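import Mathlib

/-!
# LB: lower bounds for the Mahler measure in terms of the length (MP_dc0c68_nt)

Definitions.
-/

set_option autoImplicit false

namespace H82.LB

/-- reflection into the closed unit disc -/
noncomputable def rf (a : ℂ) : ℂ := if ‖a‖ ≤ 1 then a else (starRingEnd ℂ a)⁻¹

/-- the kernel `-log |1 - a \bar b|` -/
noncomputable def kr (a b : ℂ) : ℝ := -Real.log ‖1 - a * starRingEnd ℂ b‖

end H82.LB
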