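import Mathlib
import Pool.Agent.H82.LB.Defs

/-!
# D1: Harnack's inequality in the unit disc
-/

set_option autoImplicit false

namespace H82.LB

open Metric Real InnerProductSpace

theorem pk_pos {R : ℝ} {w ζ : ℂ} (hw : ‖w‖ < R) (hζ : ‖ζ‖ = R) : 0 < ‖ζ - w‖ := by
  have h1 : R - ‖w‖ ≤ ‖ζ - w‖ := by
    rw [← hζ]
    exact norm_sub_norm_le _ _
  linarith

theorem pk_le {R : ℝ} {w₁ w₂ ζ : ℂ} (h₁ : ‖w₁‖ < R) (h₂ : ‖w₂‖ < R) (hζ : ‖ζ‖ = R) :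
    poissonKernel 0 w₁ ζ ≤ (R ^ 2 - ‖w₁‖ ^ 2) / (R ^ 2 - ‖w₂‖ ^ 2) *
      (1 + ‖w₁ - w₂‖ / (R - ‖w₁‖)) ^ 2 * poissonKernel 0 w₂ ζ := by
  rw [poissonKernel_def, poissonKernel_def]
  simp only [sub_zero]
  rw [hζ]
  have hR : 0 < R := lt_of_le_of_lt (norm_nonneg _) h₁
  have p1 := pk_pos h₁ hζ
  have p2 := pk_pos h₂ hζ
  have q1 : 0 < R ^ 2 - ‖w₁‖ ^ 2 := by nlinarith [norm_nonneg w₁]
  have q2 : 0 < R ^ 2 - ‖w₂‖ ^ 2 := by nlinarith [norm_nonneg w₂]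
  have hle : ‖ζ - w₂‖ ≤ (1 + ‖w₁ - w₂‖ / (R - ‖w₁‖)) * ‖ζ - w₁‖ := by
    have h1 : R - ‖w₁‖ ≤ ‖ζ - w₁‖ := by
      rw [← hζ]
      exact norm_sub_norm_le _ _
    have h2 : ‖ζ - w₂‖ ≤ ‖ζ - w₁‖ + ‖w₁ - w₂‖ := by
      have : ζ - w₂ = (ζ - w₁) + (w₁ - w₂) := by ring
      rw [this]
      exact norm_add_le _ _
    have h3 : ‖w₁ - w₂‖ ≤ ‖w₁ - w₂‖ / (R - ‖w₁‖) * ‖ζ - w₁‖ := by
      rw [div_mul_eq_mul_div, le_div_iff₀ (by linarith)]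
      exact mul_le_mul_of_nonneg_left h1 (norm_nonneg _)
    linarith
  have hsq : ‖ζ - w₂‖ ^ 2 ≤ (1 + ‖w₁ - w₂‖ / (R - ‖w₁‖)) ^ 2 * ‖ζ - w₁‖ ^ 2 := by
    rw [← mul_pow]
    exact pow_le_pow_left₀ (norm_nonneg _) hle 2
  have e : (R ^ 2 - ‖w₁‖ ^ 2) / (R ^ 2 - ‖w₂‖ ^ 2) *
      (1 + ‖w₁ - w₂‖ / (R - ‖w₁‖)) ^ 2 * ((R ^ 2 - ‖w₂‖ ^ 2) / ‖ζ - w₂‖ ^ 2) =
      (R ^ 2 - ‖w₁‖ ^ 2) * (1 + ‖w₁ - w₂‖ / (R - ‖w₁‖)) ^ 2 / ‖ζ - w₂‖ ^ 2 := by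
    field_simp
  rw [e, div_le_div_iff₀ (by positivity) (by positivity), mul_assoc]
  exact mul_le_mul_of_nonneg_left hsq q1.le

/-- Harnack's inequality for nonnegative harmonic functions in the open unit disc -/
theorem harnack {v : ℂ → ℝ} (hv : HarmonicOnNhd v (ball 0 1)) (h0 : ∀ w : ℂ, ‖w‖ < 1 → 0 ≤ v w)
    {w₁ w₂ : ℂ} (h₁ : ‖w₁‖ < 1) (h₂ : ‖w₂‖ < 1) :
    v w₁ ≤ (1 - ‖w₁‖ ^ 2) / (1 - ‖w₂‖ ^ 2) * (1 + ‖w₁ - w₂‖ / (1 - ‖w₁‖)) ^ 2 * v w₂ := by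
  have key : ∀ R : ℝ, ‖w₁‖ < R → ‖w₂‖ < R → R < 1 →
      v w₁ ≤ (R ^ 2 - ‖w₁‖ ^ 2) / (R ^ 2 - ‖w₂‖ ^ 2) *
        (1 + ‖w₁ - w₂‖ / (R - ‖w₁‖)) ^ 2 * v w₂ := by
    intro R hR1 hR2 hR
    have hR0 : 0 < R := lt_of_le_of_lt (norm_nonneg _) hR1
    have hh : HarmonicOnNhd v (closedBall 0 R) := hv.mono (closedBall_subset_ball hR)
    have e1 := hh.circleAverage_poissonKernel_smul (w := w₁) (by simpa using hR1)
    have e2 := hh.circleAverage_poissonKernel_smul (w := w₂) (by simpa using hR2)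
    have hc : ∀ w : ℂ, ‖w‖ < R → CircleIntegrable (poissonKernel 0 w • v) 0 R := by
      intro w hw
      apply ContinuousOn.circleIntegrable hR0.le
      apply ContinuousOn.smul
      · have e : poissonKernel 0 w = fun z : ℂ => (‖z - 0‖ ^ 2 - ‖w - 0‖ ^ 2) /
            ‖(z - 0) - (w - 0)‖ ^ 2 := by
          ext z
          rw [poissonKernel_def]
        rw [e]
        apply ContinuousOn.div
        · fun_prop
        · fun_prop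
        · intro z hz
          have := pk_pos hw (by simpa using hz)
          simp only [sub_zero]
          positivity
      · exact hh.continuousOn.mono sphere_subset_closedBall
    rw [← e1, ← e2]
    rw [← smul_eq_mul, ← circleAverage_smul]
    apply circleAverage_mono (hc w₁ hR1)
    · exact (hc w₂ hR2).const_smul
    · intro ζ hζ
      rw [abs_of_pos hR0] at hζ
      have hζ' : ‖ζ‖ = R := by simpa using hζ
      simp only [Pi.smul_apply, smul_eq_mul, Pi.smul_apply', Pi.mul_apply]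
      rw [← mul_assoc]
      exact mul_le_mul_of_nonneg_right (pk_le hR1 hR2 hζ') (h0 ζ (by rw [hζ']; exact hR))
  have hcont : ContinuousAt (fun R : ℝ => (R ^ 2 - ‖w₁‖ ^ 2) / (R ^ 2 - ‖w₂‖ ^ 2) *
        (1 + ‖w₁ - w₂‖ / (R - ‖w₁‖)) ^ 2 * v w₂) 1 := by
    have q2 : (1 : ℝ) ^ 2 - ‖w₂‖ ^ 2 ≠ 0 := by nlinarith [norm_nonneg w₂]
    have q1 : (1 : ℝ) - ‖w₁‖ ≠ 0 := by linarith
    fun_prop (disch := first | assumption | simpa using q2 | simpa using q1)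
  have ht := hcont.tendsto.mono_left (nhdsWithin_le_nhds (s := Set.Iio 1))
  simp only [one_pow] at ht
  refine ge_of_tendsto ht ?_
  have hm : max ‖w₁‖ ‖w₂‖ < 1 := max_lt h₁ h₂
  filter_upwards [Ioo_mem_nhdsLT hm] with R hR
  exact key R (lt_of_le_of_lt (le_max_left _ _) hR.1) (lt_of_le_of_lt (le_max_right _ _) hR.1) hR.2

end H82.LB
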