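import Pool.Agent.H82.LB.D1

/-!
# D2: the harmonic function `V`
-/

set_option autoImplicit false

namespace H82.LB

open Metric Real InnerProductSpace

variable {ι : Type*} [Fintype ι]

/-- the harmonic function -/
noncomputable def V (z : ι → ℂ) (L : ℝ) (w : ℂ) : ℝ :=
  L - ∑ j, Real.log ‖1 - w * starRingEnd ℂ (z j)‖

theorem one_sub_norm {w a : ℂ} (hw : ‖w‖ < 1) (ha : ‖a‖ ≤ 1) :
    0 < ‖1 - w * starRingEnd ℂ a‖ := by
  rw [norm_pos_iff]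
  intro h
  have h1 : w * starRingEnd ℂ a = 1 := (sub_eq_zero.1 h).symm
  have h2 : ‖w‖ * ‖a‖ = 1 := by
    have := congrArg norm h1
    rwa [norm_mul, RCLike.norm_conj, norm_one] at this
  nlinarith [norm_nonneg w, norm_nonneg a]

theorem V_harm (z : ι → ℂ) (L : ℝ) (hz : ∀ i, ‖z i‖ ≤ 1) : HarmonicOnNhd (V z L) (ball 0 1) := by
  classical
  have h1 : ∀ s : Finset ι, HarmonicOnNhd
      (fun w : ℂ => ∑ j ∈ s, Real.log ‖1 - w * starRingEnd ℂ (z j)‖) (ball 0 1) := by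
    intro s
    induction s using Finset.induction_on with
    | empty => simp
    | insert a s ha ih =>
      have e : (fun w : ℂ => ∑ j ∈ insert a s, Real.log ‖1 - w * starRingEnd ℂ (z j)‖) =
          (fun w : ℂ => Real.log ‖1 - w * starRingEnd ℂ (z a)‖) +
          (fun w : ℂ => ∑ j ∈ s, Real.log ‖1 - w * starRingEnd ℂ (z j)‖) := by
        ext w
        rw [Finset.sum_insert ha]
        rfl
      rw [e]
      refine HarmonicOnNhd.add ?_ ih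
      intro w hw
      apply AnalyticAt.harmonicAt_log_norm (by fun_prop)
      rw [← norm_pos_iff]
      exact one_sub_norm (by simpa using hw) (hz a)
  have e : V z L = (fun _ => L) -
      (fun w : ℂ => ∑ j, Real.log ‖1 - w * starRingEnd ℂ (z j)‖) := by
    ext w
    rfl
  rw [e]
  exact (harmonicOnNhd_const L).sub (h1 Finset.univ)

theorem V_zero (z : ι → ℂ) (L : ℝ) : V z L 0 = L := by
  simp [V]

theorem V_nonneg (z : ι → ℂ) (L : ℝ) (hz : ∀ i, ‖z i‖ ≤ 1)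
    (hF : ∀ w : ℂ, ‖w‖ = 1 → ∏ i, ‖1 - w * starRingEnd ℂ (z i)‖ ≤ Real.exp L)
    (w : ℂ) (hw : ‖w‖ < 1) : 0 ≤ V z L w := by
  have h1 : ‖∏ i, (1 - w * starRingEnd ℂ (z i))‖ ≤ Real.exp L := by
    refine Complex.norm_le_of_forall_mem_frontier_norm_le (U := ball (0 : ℂ) 1)
      (f := fun w => ∏ i, (1 - w * starRingEnd ℂ (z i))) isBounded_ball ?_ ?_ ?_
    · apply Differentiable.diffContOnCl
      fun_prop
    · intro u hu
      rw [frontier_ball _ one_ne_zero] at hu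
      rw [norm_prod]
      exact hF u (by simpa using hu)
    · apply subset_closure
      simpa using hw
  rw [norm_prod] at h1
  have hpos : ∀ i, 0 < ‖1 - w * starRingEnd ℂ (z i)‖ := fun i => one_sub_norm hw (hz i)
  have h2 := Real.log_le_log (Finset.prod_pos fun i _ => hpos i) h1
  rw [Real.log_exp, Real.log_prod fun i _ => (hpos i).ne'] at h2
  unfold V
  linarith

section Harnack

variable {z : ι → ℂ} {L : ℝ} (hz : ∀ i, ‖z i‖ ≤ 1)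
    (hF : ∀ w : ℂ, ‖w‖ = 1 → ∏ i, ‖1 - w * starRingEnd ℂ (z i)‖ ≤ Real.exp L)

include hz hF

theorem V_hn {w₁ w₂ : ℂ} (h₁ : ‖w₁‖ < 1) (h₂ : ‖w₂‖ < 1) (h12 : ‖w₂‖ ≤ ‖w₁‖) (k : ℝ)
    (_hk0 : 0 ≤ k) (hk : ‖w₁ - w₂‖ ≤ k * (1 - ‖w₁‖)) :
    V z L w₁ ≤ (1 + k) ^ 2 * V z L w₂ := by
  have h := harnack (V_harm z L hz) (V_nonneg z L hz hF) h₁ h₂
  refine h.trans ?_
  apply mul_le_mul_of_nonneg_right _ (V_nonneg z L hz hF w₂ h₂)
  have q2 : 0 < 1 - ‖w₂‖ ^ 2 := by nlinarith [norm_nonneg w₂]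
  have q1 : 0 < 1 - ‖w₁‖ ^ 2 := by nlinarith [norm_nonneg w₁]
  have h3 : (1 - ‖w₁‖ ^ 2) / (1 - ‖w₂‖ ^ 2) ≤ 1 := by
    rw [div_le_one q2]
    nlinarith [norm_nonneg w₁, norm_nonneg w₂]
  have h4 : ‖w₁ - w₂‖ / (1 - ‖w₁‖) ≤ k := by
    rw [div_le_iff₀ (by linarith)]
    exact hk
  have h5 : 0 ≤ ‖w₁ - w₂‖ / (1 - ‖w₁‖) := by
    apply div_nonneg (norm_nonneg _)
    linarith
  have h6 : (1 + ‖w₁ - w₂‖ / (1 - ‖w₁‖)) ^ 2 ≤ (1 + k) ^ 2 :=
    pow_le_pow_left₀ (by linarith) (by linarith) 2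
  have h7 : 0 ≤ (1 + ‖w₁ - w₂‖ / (1 - ‖w₁‖)) ^ 2 := by positivity
  calc _ ≤ 1 * (1 + ‖w₁ - w₂‖ / (1 - ‖w₁‖)) ^ 2 := mul_le_mul_of_nonneg_right h3 h7
    _ ≤ (1 + k) ^ 2 := by rw [one_mul]; exact h6

/-- radial Harnack -/
theorem V_radial {a : ℂ} (ha : ‖a‖ ≤ 1) {δ' δ : ℝ} (h0 : 0 < δ') (h1 : δ' ≤ δ) (h2 : δ ≤ 1) :
    V z L ((1 - δ' : ℝ) * a) ≤ (δ / δ') ^ 2 * V z L ((1 - δ : ℝ) * a) := by
  have n1 : ‖((1 - δ' : ℝ) : ℂ) * a‖ = (1 - δ') * ‖a‖ := by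
    rw [norm_mul, Complex.norm_real, Real.norm_of_nonneg (by linarith)]
  have n2 : ‖((1 - δ : ℝ) : ℂ) * a‖ = (1 - δ) * ‖a‖ := by
    rw [norm_mul, Complex.norm_real, Real.norm_of_nonneg (by linarith)]
  have na := norm_nonneg a
  have h := V_hn hz hF (w₁ := ((1 - δ' : ℝ) : ℂ) * a) (w₂ := ((1 - δ : ℝ) : ℂ) * a)
    (by rw [n1]; nlinarith) (by rw [n2]; nlinarith) (by rw [n1, n2]; nlinarith)
    (δ / δ' - 1) (by rw [sub_nonneg, le_div_iff₀ h0]; linarith) (by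
      have e : ((1 - δ' : ℝ) : ℂ) * a - ((1 - δ : ℝ) : ℂ) * a = ((δ - δ' : ℝ) : ℂ) * a := by
        push_cast
        ring
      rw [e, norm_mul, Complex.norm_real, Real.norm_of_nonneg (by linarith), n1]
      have h3 : (δ / δ' - 1) * δ' = δ - δ' := by
        field_simp
      have h4 : 0 ≤ δ / δ' - 1 := by rw [sub_nonneg, le_div_iff₀ h0]; linarith
      calc (δ - δ') * ‖a‖ ≤ (δ - δ') * 1 := by gcongr
        _ = (δ / δ' - 1) * δ' := by rw [h3, mul_one]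
        _ ≤ (δ / δ' - 1) * (1 - (1 - δ') * ‖a‖) := by
          apply mul_le_mul_of_nonneg_left _ h4
          nlinarith)
  have e : 1 + (δ / δ' - 1) = δ / δ' := by ring
  rwa [e] at h

/-- far points -/
theorem V_far {a : ℂ} (ha : ‖a‖ < 1) {δ : ℝ} (h0 : 0 ≤ δ) (h1 : δ ≤ 1)
    (h2 : δ ≤ 2 * (1 - ‖a‖)) :
    V z L a ≤ 9 * V z L ((1 - δ : ℝ) * a) := by
  have n2 : ‖((1 - δ : ℝ) : ℂ) * a‖ = (1 - δ) * ‖a‖ := by
    rw [norm_mul, Complex.norm_real, Real.norm_of_nonneg (by linarith)]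
  have na := norm_nonneg a
  have h := V_hn hz hF (w₁ := a) (w₂ := ((1 - δ : ℝ) : ℂ) * a) ha (by rw [n2]; nlinarith)
    (by rw [n2]; nlinarith) 2 (by norm_num) (by
      have e : a - ((1 - δ : ℝ) : ℂ) * a = ((δ : ℝ) : ℂ) * a := by
        push_cast
        ring
      rw [e, norm_mul, Complex.norm_real, Real.norm_of_nonneg h0]
      nlinarith)
  norm_num at h
  exact_mod_cast h

/-- Harnack from the centre -/
theorem V_center {w : ℂ} (hw : ‖w‖ ≤ 1 / 2) (hL : 0 ≤ L) : V z L w ≤ 3 * L := by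
  have h := harnack (V_harm z L hz) (V_nonneg z L hz hF) (w₁ := w) (w₂ := 0) (by linarith)
    (by simp)
  rw [V_zero, sub_zero, norm_zero] at h
  refine h.trans ?_
  apply mul_le_mul_of_nonneg_right _ hL
  have h1 : (0 : ℝ) < 1 - ‖w‖ := by linarith
  have e : (1 - ‖w‖ ^ 2) / (1 - 0 ^ 2) * (1 + ‖w‖ / (1 - ‖w‖)) ^ 2 = (1 + ‖w‖) / (1 - ‖w‖) := by
    field_simp
    ring
  rw [e, div_le_iff₀ h1]
  linarith

/-- points of the same modulus -/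
theorem V_arc {a u : ℂ} (ha0 : a ≠ 0) (ha : ‖a‖ ≤ 1) (hu : ‖u‖ = 1) {δ : ℝ} (h0 : 0 < δ)
    (h1 : δ ≤ 1) (h2 : ‖u - a / ‖a‖‖ ≤ δ) :
    V z L ((1 - δ : ℝ) * a) ≤ 4 * V z L (((1 - δ) * ‖a‖ : ℝ) * u) := by
  have hna : 0 < ‖a‖ := norm_pos_iff.2 ha0
  have n1 : ‖((1 - δ : ℝ) : ℂ) * a‖ = (1 - δ) * ‖a‖ := by
    rw [norm_mul, Complex.norm_real, Real.norm_of_nonneg (by linarith)]
  have n2 : ‖(((1 - δ) * ‖a‖ : ℝ) : ℂ) * u‖ = (1 - δ) * ‖a‖ := by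
    rw [norm_mul, Complex.norm_real, Real.norm_of_nonneg (by nlinarith), hu, mul_one]
  have h := V_hn hz hF (w₁ := ((1 - δ : ℝ) : ℂ) * a) (w₂ := (((1 - δ) * ‖a‖ : ℝ) : ℂ) * u)
    (by rw [n1]; nlinarith) (by rw [n2]; nlinarith) (by rw [n1, n2]) 1 (by norm_num) (by
      have hne : (‖a‖ : ℂ) ≠ 0 := by exact_mod_cast hna.ne'
      have e : ((1 - δ : ℝ) : ℂ) * a - (((1 - δ) * ‖a‖ : ℝ) : ℂ) * u =
          (((1 - δ) * ‖a‖ : ℝ) : ℂ) * (a / ‖a‖ - u) := by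
        push_cast
        field_simp
      rw [e, norm_mul, Complex.norm_real, Real.norm_of_nonneg (by nlinarith), n1, norm_sub_rev]
      have h3 : (1 - δ) * ‖a‖ ≤ 1 - δ := by nlinarith
      have h4 : 0 ≤ (1 - δ) * ‖a‖ := by nlinarith
      have h5 : (1 - δ) * ‖a‖ * ‖u - a / ‖a‖‖ ≤ 1 * δ := by
        apply mul_le_mul (by linarith) h2 (norm_nonneg _) zero_le_one
      linarith)
  norm_num at h
  exact_mod_cast h

end Harnack

end H82.LB
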