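import Mathlib
import Pool.Agent.H82.LB.Defs

/-!
# D3: inequalities for one factor
-/

set_option autoImplicit false

namespace H82.LB

open Real

theorem nsq (ρ : ℝ) (x : ℂ) : ‖1 - (ρ : ℂ) * x‖ ^ 2 = 1 - 2 * ρ * x.re + ρ ^ 2 * ‖x‖ ^ 2 := by
  rw [← Complex.normSq_eq_norm_sq, ← Complex.normSq_eq_norm_sq, Complex.normSq_apply,
    Complex.normSq_apply]
  simp
  ring

theorem re_le {x : ℂ} : 2 * x.re ≤ 1 + ‖x‖ ^ 2 := by
  have h := Complex.re_le_norm x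
  nlinarith [sq_nonneg (1 - ‖x‖)]

theorem one_sub_pos {ρ : ℝ} (h0 : 0 ≤ ρ) (h1 : ρ < 1) {x : ℂ} (hx : ‖x‖ ≤ 1) :
    1 - ρ ≤ ‖1 - (ρ : ℂ) * x‖ ∧ 0 < ‖1 - (ρ : ℂ) * x‖ := by
  have h2 : 1 - ρ ≤ ‖1 - (ρ : ℂ) * x‖ := by
    have h3 := norm_sub_norm_le (1 : ℂ) ((ρ : ℂ) * x)
    rw [norm_one, norm_mul, Complex.norm_real, Real.norm_of_nonneg h0] at h3
    nlinarith [norm_nonneg x]
  exact ⟨h2, by linarith⟩

/-- the Poisson factor -/
noncomputable def pf (ρ : ℝ) (x : ℂ) : ℝ := (1 - ρ ^ 2 * ‖x‖ ^ 2) / ‖1 - (ρ : ℂ) * x‖ ^ 2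

theorem pf_nonneg {ρ : ℝ} (h0 : 0 ≤ ρ) (h1 : ρ ≤ 1) {x : ℂ} (hx : ‖x‖ ≤ 1) : 0 ≤ pf ρ x := by
  apply div_nonneg _ (by positivity)
  have : ρ * ‖x‖ ≤ 1 := by nlinarith [norm_nonneg x]
  have h2 : 0 ≤ ρ * ‖x‖ := by positivity
  nlinarith

set_option maxHeartbeats 2000000 in
/-- upper estimate of the increments -/
theorem fac_up {δ' δ : ℝ} (h0 : 0 < δ') (h1 : δ' ≤ δ) (h2 : δ ≤ 1 / 2) {x : ℂ} (hx : ‖x‖ ≤ 1) :
    Real.log ‖1 - ((1 - δ : ℝ) : ℂ) * x‖ - Real.log ‖1 - ((1 - δ' : ℝ) : ℂ) * x‖ ≤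
      3 * δ * pf (1 - δ) x * Real.log (1 + δ / δ') := by
  have hδ : 0 < δ := by linarith
  obtain ⟨ha1, ha⟩ := one_sub_pos (ρ := 1 - δ) (by linarith) (by linarith) hx
  obtain ⟨hb1, hb⟩ := one_sub_pos (ρ := 1 - δ') (by linarith) (by linarith) hx
  have hA := nsq (1 - δ) x
  have hB := nsq (1 - δ') x
  have hp := pf_nonneg (ρ := 1 - δ) (by linarith) (by linarith) hx
  have hpe : pf (1 - δ) x * ‖1 - ((1 - δ : ℝ) : ℂ) * x‖ ^ 2 = 1 - (1 - δ) ^ 2 * ‖x‖ ^ 2 := by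
    unfold pf
    field_simp
  set a := ‖1 - ((1 - δ : ℝ) : ℂ) * x‖ with hadef
  set b := ‖1 - ((1 - δ' : ℝ) : ℂ) * x‖ with hbdef
  set p := pf (1 - δ) x with hpdef
  have hre := re_le (x := x)
  have hq0 : 0 ≤ ‖x‖ ^ 2 := by positivity
  have hq1 : ‖x‖ ^ 2 ≤ 1 := by nlinarith [norm_nonneg x]
  have hlog2 : 0.69 < Real.log (1 + δ / δ') := by
    have h3 : (2 : ℝ) ≤ 1 + δ / δ' := by
      have : 1 ≤ δ / δ' := by rw [le_div_iff₀ h0]; linarith
      linarith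
    have h4 := Real.log_le_log (by norm_num) h3
    have := Real.log_two_gt_d9
    linarith
  -- `a² - b² ≤ (4/3) δ p a²`
  have key : a ^ 2 - b ^ 2 ≤ 4 / 3 * δ * p * a ^ 2 := by
    have e1 : 4 / 3 * δ * p * a ^ 2 = 4 / 3 * δ * (1 - (1 - δ) ^ 2 * ‖x‖ ^ 2) := by
      rw [mul_assoc (4 / 3 * δ), hpe]
    rw [e1, hA, hB]
    have e2 : 1 - 2 * (1 - δ) * x.re + (1 - δ) ^ 2 * ‖x‖ ^ 2 -
        (1 - 2 * (1 - δ') * x.re + (1 - δ') ^ 2 * ‖x‖ ^ 2) =
        (δ - δ') * (2 * x.re - (2 - δ - δ') * ‖x‖ ^ 2) := by ring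
    rw [e2]
    have h3 : (δ - δ') * (2 * x.re - (2 - δ - δ') * ‖x‖ ^ 2) ≤
        (δ - δ') * (1 - (1 - δ - δ') * ‖x‖ ^ 2) := by
      apply mul_le_mul_of_nonneg_left _ (by linarith)
      nlinarith
    refine h3.trans ?_
    have h5 : 0 ≤ 1 - (1 - δ - δ') * ‖x‖ ^ 2 := by nlinarith
    have h6 : (δ - δ') * (1 - (1 - δ - δ') * ‖x‖ ^ 2) ≤ δ * (1 - (1 - δ - δ') * ‖x‖ ^ 2) := by
      apply mul_le_mul_of_nonneg_right _ h5
      linarith
    refine h6.trans ?_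
    have h7 : 1 - (1 - δ - δ') * ‖x‖ ^ 2 ≤ 4 / 3 * (1 - (1 - δ) ^ 2 * ‖x‖ ^ 2) := by
      -- `1 - q + (δ + δ') q ≤ (4/3) (1 - q + (2 δ - δ²) q)`
      nlinarith [mul_nonneg hq0 hδ.le, mul_nonneg hq0 h0.le, mul_nonneg hq0 (sub_nonneg.2 h1),
        mul_nonneg (mul_nonneg hq0 hδ.le) (sub_nonneg.2 h2)]
    nlinarith
  by_cases hy : 4 / 3 * δ * p ≤ 1 / 2
  · -- small case
    set y := 4 / 3 * δ * p with hydef
    have hy0 : 0 ≤ y := by positivity
    have h3 : (1 - y) * a ^ 2 ≤ b ^ 2 := by nlinarith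
    have h4 := Real.log_le_log (by have : 0 < 1 - y := by linarith
                                   positivity) h3
    rw [Real.log_mul (by linarith) (by positivity), Real.log_pow, Real.log_pow] at h4
    push_cast at h4
    have h5 : -(2 * y) ≤ Real.log (1 - y) := by
      have h6 := Real.one_sub_inv_le_log_of_pos (show 0 < 1 - y by linarith)
      have h7 : -(2 * y) ≤ 1 - (1 - y)⁻¹ := by
        have h8 : (1 - y)⁻¹ ≤ 1 + 2 * y := by
          rw [inv_le_comm₀ (by linarith) (by linarith)]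
          rw [inv_le_comm₀ (by linarith) (by linarith)]
          rw [inv_le_iff_one_le_mul₀ (by linarith)]
          nlinarith
        linarith
      linarith
    have h9 : Real.log a - Real.log b ≤ y := by linarith
    have h10 : y ≤ 3 * δ * p * Real.log (1 + δ / δ') := by
      have h11 : 0 ≤ δ * p := by positivity
      have h12 := mul_le_mul_of_nonneg_left hlog2.le h11
      rw [hydef]
      linarith
    linarith
  · push Not at hy
    clear key hpe hre hq0 hq1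
    have h3 : a ≤ b + (δ - δ') := by
      have e : (1 : ℂ) - ((1 - δ : ℝ) : ℂ) * x = (1 - ((1 - δ' : ℝ) : ℂ) * x) +
          ((δ - δ' : ℝ) : ℂ) * x := by
        push_cast
        ring
      rw [hadef, e]
      refine (norm_add_le _ _).trans ?_
      rw [norm_mul, Complex.norm_real, Real.norm_of_nonneg (by linarith)]
      have h8 := mul_le_mul_of_nonneg_left hx (sub_nonneg.2 h1)
      linarith
    have h4 : a ≤ b * (1 + δ / δ') := by
      have h5 : δ - δ' ≤ b * (δ / δ') := by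
        have h6 : δ' ≤ b := by linarith
        rw [mul_div_assoc', le_div_iff₀ h0]
        have h7 := mul_le_mul_of_nonneg_right h6 hδ.le
        have h8 : 0 ≤ δ' * δ' := by positivity
        have e3 : (δ - δ') * δ' = δ' * δ - δ' * δ' := by ring
        linarith
      linarith
    have h5 := Real.log_le_log ha h4
    rw [Real.log_mul hb.ne' (by positivity)] at h5
    have h6 : 0 < Real.log (1 + δ / δ') := by linarith
    have h7 : Real.log (1 + δ / δ') ≤ 3 * δ * p * Real.log (1 + δ / δ') := by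
      have h8 : 1 ≤ 3 * δ * p := by linarith
      have h9 := mul_le_mul_of_nonneg_right h8 h6.le
      linarith
    linarith

set_option maxHeartbeats 2000000 in
/-- lower estimate of the increments -/
theorem fac_low {δ : ℝ} (h0 : 0 < δ) (h2 : δ ≤ 1 / 2) {x : ℂ} (hx : ‖x‖ ≤ 1) :
    δ / 8 * pf (1 - δ) x - δ / 2 ≤
      Real.log ‖1 - ((1 - δ : ℝ) : ℂ) * x‖ - Real.log ‖1 - ((1 - δ / 2 : ℝ) : ℂ) * x‖ := by
  obtain ⟨ha1, ha⟩ := one_sub_pos (ρ := 1 - δ) (by linarith) (by linarith) hx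
  obtain ⟨hb1, hb⟩ := one_sub_pos (ρ := 1 - δ / 2) (by linarith) (by linarith) hx
  have hA := nsq (1 - δ) x
  have hB := nsq (1 - δ / 2) x
  have hp := pf_nonneg (ρ := 1 - δ) (by linarith) (by linarith) hx
  have hpe : pf (1 - δ) x * ‖1 - ((1 - δ : ℝ) : ℂ) * x‖ ^ 2 = 1 - (1 - δ) ^ 2 * ‖x‖ ^ 2 := by
    unfold pf
    field_simp
  set a := ‖1 - ((1 - δ : ℝ) : ℂ) * x‖ with hadef
  set b := ‖1 - ((1 - δ / 2 : ℝ) : ℂ) * x‖ with hbdef
  set p := pf (1 - δ) x with hpdef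
  have hq0 : 0 ≤ ‖x‖ ^ 2 := by positivity
  have hq1 : ‖x‖ ^ 2 ≤ 1 := by nlinarith [norm_nonneg x]
  have hρ : 0 < 1 - δ := by linarith
  have key : δ / (2 * (1 - δ)) * (p / 2 - 1) * a ^ 2 ≤ a ^ 2 - b ^ 2 := by
    have e1 : a ^ 2 - b ^ 2 = δ / (2 * (1 - δ)) *
        (1 - (1 - δ) * (1 - δ / 2) * ‖x‖ ^ 2 - a ^ 2) := by
      rw [hA, hB]
      field_simp
      ring
    rw [e1, mul_assoc]
    apply mul_le_mul_of_nonneg_left _ (by positivity)
    have e2 : (p / 2 - 1) * a ^ 2 = 1 / 2 * (1 - (1 - δ) ^ 2 * ‖x‖ ^ 2) - a ^ 2 := by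
      rw [← hpe]
      ring
    rw [e2]
    have h3 : 0 ≤ 1 - ‖x‖ ^ 2 := by linarith
    nlinarith [mul_nonneg hρ.le hq0, mul_nonneg (mul_nonneg hρ.le hq0) h0.le]
  have h3 : (a ^ 2 - b ^ 2) / a ^ 2 ≤ 2 * (Real.log a - Real.log b) := by
    have h4 := Real.log_le_sub_one_of_pos (show 0 < b ^ 2 / a ^ 2 by positivity)
    rw [Real.log_div (by positivity) (by positivity), Real.log_pow, Real.log_pow] at h4
    push_cast at h4
    have h5 : (a ^ 2 - b ^ 2) / a ^ 2 = 1 - b ^ 2 / a ^ 2 := by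
      field_simp
    rw [h5]
    linarith
  have h4 : δ / (2 * (1 - δ)) * (p / 2 - 1) ≤ (a ^ 2 - b ^ 2) / a ^ 2 := by
    rw [le_div_iff₀ (by positivity)]
    exact key
  have h5 : δ / 4 * p - δ ≤ δ / (2 * (1 - δ)) * (p / 2 - 1) := by
    have h6 : δ / 2 ≤ δ / (2 * (1 - δ)) := by
      apply div_le_div_of_nonneg_left h0.le (by linarith) (by linarith)
    have h7 : δ / (2 * (1 - δ)) ≤ δ := by
      rw [div_le_iff₀ (by linarith)]
      nlinarith
    have h8 : δ / 2 * (p / 2) ≤ δ / (2 * (1 - δ)) * (p / 2) := by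
      apply mul_le_mul_of_nonneg_right h6 (by positivity)
    nlinarith
  nlinarith

theorem half_le {w : ℂ} (hw : ‖w‖ ≤ 1) {r : ℝ} (h0 : 0 ≤ r) (h1 : r ≤ 1) :
    (1 + r) / 2 * ‖1 - w‖ ≤ ‖1 - (r : ℂ) * w‖ := by
  apply le_of_sq_le_sq _ (norm_nonneg _)
  rw [mul_pow, nsq]
  have e := nsq 1 w
  simp only [Complex.ofReal_one, one_mul, mul_one, one_pow] at e
  rw [e]
  have hc : -1 ≤ w.re := by
    have := Complex.abs_re_le_norm w
    have h3 := neg_abs_le w.re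
    linarith
  have hq1 : ‖w‖ ^ 2 ≤ 1 := by nlinarith [norm_nonneg w]
  have h2 : 0 ≤ 1 - r := by linarith
  have e2 : 1 - 2 * r * w.re + r ^ 2 * ‖w‖ ^ 2 - ((1 + r) / 2) ^ 2 * (1 - 2 * w.re + ‖w‖ ^ 2) =
      (1 - r) / 4 * ((3 + r) - ‖w‖ ^ 2 * (3 * r + 1) + 2 * w.re * (1 - r)) := by ring
  have h3 : 0 ≤ (3 + r) - ‖w‖ ^ 2 * (3 * r + 1) + 2 * w.re * (1 - r) := by nlinarith
  have h4 : 0 ≤ (1 - r) / 4 * ((3 + r) - ‖w‖ ^ 2 * (3 * r + 1) + 2 * w.re * (1 - r)) := by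
    positivity
  linarith

/-- outward comparison -/
theorem fac_out {R R' : ℝ} (h0 : 0 ≤ R) (h1 : R ≤ R') (h2 : R' < 1) {x : ℂ} (hx : ‖x‖ ≤ 1) :
    Real.log ‖1 - (R' : ℂ) * x‖ ≤ Real.log ‖1 - (R : ℂ) * x‖ + (1 - R) := by
  obtain ⟨_, ha⟩ := one_sub_pos h0 (by linarith) hx
  obtain ⟨_, hb⟩ := one_sub_pos (by linarith) h2 hx
  rcases eq_or_lt_of_le (h0.trans h1) with hR | hR
  · have hR0 : R = 0 := by linarith
    rw [← hR, hR0]
    simp
  · set r := R / R' with hr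
    have hr0 : 0 ≤ r := by positivity
    have hr1 : r ≤ 1 := by rw [hr, div_le_one hR]; exact h1
    have h3 := half_le (w := (R' : ℂ) * x) (by
      rw [norm_mul, Complex.norm_real, Real.norm_of_nonneg hR.le]
      nlinarith [norm_nonneg x]) hr0 hr1
    have e : (r : ℂ) * ((R' : ℂ) * x) = (R : ℂ) * x := by
      rw [hr]
      push_cast
      have : (R' : ℂ) ≠ 0 := by exact_mod_cast hR.ne'
      field_simp
    rw [e] at h3
    have h4 := Real.log_le_log (by positivity) h3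
    rw [Real.log_mul (by positivity) hb.ne'] at h4
    have h5 : -(1 - R) ≤ Real.log ((1 + r) / 2) := by
      have h6 := Real.one_sub_inv_le_log_of_pos (show 0 < (1 + r) / 2 by positivity)
      have h7 : ((1 + r) / 2)⁻¹ ≤ 1 + (1 - r) := by
        rw [inv_le_iff_one_le_mul₀ (by positivity)]
        nlinarith
      have h8 : R ≤ r := by
        rw [hr, le_div_iff₀ hR]
        nlinarith
      linarith
    linarith

end H82.LB
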