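import Pool.Agent.H82.LB.D2
import Pool.Agent.H82.LB.D3

/-!
# D4: sums over the factors, increments of `V`
-/

set_option autoImplicit false

namespace H82.LB

open Metric Real InnerProductSpace

variable {ι : Type*} [Fintype ι]

/-- the sum of the Poisson factors -/
noncomputable def PS (z : ι → ℂ) (δ : ℝ) (a : ℂ) : ℝ := ∑ j, pf (1 - δ) (a * starRingEnd ℂ (z j))

theorem mul_conj_le {a b : ℂ} (ha : ‖a‖ ≤ 1) (hb : ‖b‖ ≤ 1) : ‖a * starRingEnd ℂ b‖ ≤ 1 := by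
  rw [norm_mul, RCLike.norm_conj]
  exact mul_le_one₀ ha (norm_nonneg _) hb

section

variable {z : ι → ℂ} {L : ℝ} (hz : ∀ i, ‖z i‖ ≤ 1)

include hz

theorem V_up {a : ℂ} (ha : ‖a‖ ≤ 1) {δ' δ : ℝ} (h0 : 0 < δ') (h1 : δ' ≤ δ) (h2 : δ ≤ 1 / 2) :
    V z L ((1 - δ' : ℝ) * a) ≤ V z L ((1 - δ : ℝ) * a) +
      3 * δ * Real.log (1 + δ / δ') * PS z δ a := by
  have h : ∑ j, (Real.log ‖1 - ((1 - δ : ℝ) : ℂ) * (a * starRingEnd ℂ (z j))‖ -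
      Real.log ‖1 - ((1 - δ' : ℝ) : ℂ) * (a * starRingEnd ℂ (z j))‖) ≤
      ∑ j, 3 * δ * pf (1 - δ) (a * starRingEnd ℂ (z j)) * Real.log (1 + δ / δ') :=
    Finset.sum_le_sum fun j _ => fac_up h0 h1 h2 (mul_conj_le ha (hz j))
  rw [Finset.sum_sub_distrib] at h
  have e : ∑ j, 3 * δ * pf (1 - δ) (a * starRingEnd ℂ (z j)) * Real.log (1 + δ / δ') =
      3 * δ * Real.log (1 + δ / δ') * PS z δ a := by
    rw [PS, Finset.mul_sum]
    exact Finset.sum_congr rfl fun j _ => by ring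
  rw [e] at h
  unfold V
  simp only [mul_assoc] at h ⊢
  linarith

theorem V_low {a : ℂ} (ha : ‖a‖ ≤ 1) {δ : ℝ} (h0 : 0 < δ) (h2 : δ ≤ 1 / 2) :
    δ / 8 * PS z δ a - Fintype.card ι * (δ / 2) ≤
      V z L ((1 - δ / 2 : ℝ) * a) - V z L ((1 - δ : ℝ) * a) := by
  have h : ∑ j, (δ / 8 * pf (1 - δ) (a * starRingEnd ℂ (z j)) - δ / 2) ≤
      ∑ j, (Real.log ‖1 - ((1 - δ : ℝ) : ℂ) * (a * starRingEnd ℂ (z j))‖ -
      Real.log ‖1 - ((1 - δ / 2 : ℝ) : ℂ) * (a * starRingEnd ℂ (z j))‖) :=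
    Finset.sum_le_sum fun j _ => fac_low h0 h2 (mul_conj_le ha (hz j))
  rw [Finset.sum_sub_distrib, Finset.sum_sub_distrib, ← Finset.mul_sum, Finset.sum_const,
    Finset.card_univ, nsmul_eq_mul] at h
  unfold V PS
  simp only [mul_assoc] at h ⊢
  linarith

theorem V_out {u : ℂ} (hu : ‖u‖ ≤ 1) {R R' : ℝ} (h0 : 0 ≤ R) (h1 : R ≤ R') (h2 : R' < 1) :
    V z L ((R : ℂ) * u) ≤ V z L ((R' : ℂ) * u) + Fintype.card ι * (1 - R) := by
  have h : ∑ j, Real.log ‖1 - (R' : ℂ) * (u * starRingEnd ℂ (z j))‖ ≤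
      ∑ j, (Real.log ‖1 - (R : ℂ) * (u * starRingEnd ℂ (z j))‖ + (1 - R)) :=
    Finset.sum_le_sum fun j _ => fac_out h0 h1 h2 (mul_conj_le hu (hz j))
  rw [Finset.sum_add_distrib, Finset.sum_const, Finset.card_univ, nsmul_eq_mul] at h
  unfold V
  simp only [mul_assoc] at h ⊢
  linarith

theorem PS_nonneg {a : ℂ} (ha : ‖a‖ ≤ 1) {δ : ℝ} (h0 : 0 ≤ δ) (h2 : δ ≤ 1) : 0 ≤ PS z δ a :=
  Finset.sum_nonneg fun j _ => pf_nonneg (by linarith) (by linarith) (mul_conj_le ha (hz j))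

theorem PS_half {a : ℂ} (ha : ‖a‖ ≤ 1) : PS z (1 / 2) a ≤ 4 * Fintype.card ι := by
  have h : PS z (1 / 2) a ≤ ∑ _j : ι, (4 : ℝ) := by
    refine Finset.sum_le_sum fun j _ => ?_
    have hx := mul_conj_le ha (hz j)
    obtain ⟨h1, h2⟩ := one_sub_pos (ρ := 1 - 1 / 2) (by norm_num) (by norm_num) hx
    unfold pf
    rw [div_le_iff₀ (by positivity)]
    have h3 : (1 / 2 : ℝ) ^ 2 ≤ ‖1 - ((1 - 1 / 2 : ℝ) : ℂ) * (a * starRingEnd ℂ (z j))‖ ^ 2 :=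
      pow_le_pow_left₀ (by norm_num) (by linarith) 2
    have h4 : 0 ≤ (1 - 1 / 2 : ℝ) ^ 2 * ‖a * starRingEnd ℂ (z j)‖ ^ 2 := by positivity
    linarith
  rw [Finset.sum_const, Finset.card_univ, nsmul_eq_mul] at h
  linarith

/-- one point of a zone contributes to `PS` -/
theorem pf_zone {k i : ι} {δ : ℝ} (h0 : 0 < δ) (h1 : δ ≤ 1 / 2) (hk : 1 - ‖z k‖ ≤ δ)
    (hi : 1 - ‖z i‖ ≤ 2 * δ) (hk0 : z k ≠ 0) (hi0 : z i ≠ 0)
    (he : ‖z i / ‖z i‖ - z k / ‖z k‖‖ ≤ 3 * δ) :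
    1 / (49 * δ) ≤ pf (1 - δ) (z k * starRingEnd ℂ (z i)) := by
  have hx := mul_conj_le (hz k) (hz i)
  obtain ⟨_, h2⟩ := one_sub_pos (ρ := 1 - δ) (by linarith) (by linarith) hx
  have nk : 0 < ‖z k‖ := norm_pos_iff.2 hk0
  have ni : 0 < ‖z i‖ := norm_pos_iff.2 hi0
  have hk1 := hz k
  have hi1 := hz i
  have hup : ‖1 - ((1 - δ : ℝ) : ℂ) * (z k * starRingEnd ℂ (z i))‖ ≤ 7 * δ := by
    have hki : (‖z k‖ : ℂ) ≠ 0 := by exact_mod_cast nk.ne'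
    have hii : (‖z i‖ : ℂ) ≠ 0 := by exact_mod_cast ni.ne'
    have hei : ‖z i / ‖z i‖‖ = 1 := by
      rw [norm_div, Complex.norm_real, norm_norm, div_self ni.ne']
    have e0 : (1 : ℂ) = z i / ‖z i‖ * starRingEnd ℂ (z i / ‖z i‖) := by
      rw [Complex.mul_conj, Complex.normSq_eq_norm_sq, hei]
      simp
    have e : 1 - ((1 - δ : ℝ) : ℂ) * (z k * starRingEnd ℂ (z i)) =
        ((1 - (1 - δ) * ‖z k‖ * ‖z i‖ : ℝ) : ℂ) +
        (((1 - δ) * ‖z k‖ * ‖z i‖ : ℝ) : ℂ) *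
          ((z i / ‖z i‖ - z k / ‖z k‖) * starRingEnd ℂ (z i / ‖z i‖)) := by
      have e1 : (z i / ‖z i‖ - z k / ‖z k‖) * starRingEnd ℂ (z i / ‖z i‖) =
          1 - z k / ‖z k‖ * starRingEnd ℂ (z i / ‖z i‖) := by
        rw [sub_mul, ← e0]
      rw [e1, map_div₀, Complex.conj_ofReal]
      push_cast
      field_simp
      ring
    rw [e]
    refine (norm_add_le _ _).trans ?_
    rw [norm_mul, norm_mul, RCLike.norm_conj, hei, mul_one, Complex.norm_real, Complex.norm_real]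
    have p1 : 0 ≤ (1 - δ) * ‖z k‖ * ‖z i‖ := by
      have : 0 ≤ 1 - δ := by linarith
      positivity
    have p2 : (1 - δ) * ‖z k‖ * ‖z i‖ ≤ 1 := by
      have h3 : (1 - δ) * ‖z k‖ ≤ 1 := by nlinarith
      have h4 : 0 ≤ (1 - δ) * ‖z k‖ := by
        have : 0 ≤ 1 - δ := by linarith
        positivity
      nlinarith
    have p3 : 1 - (1 - δ) * ‖z k‖ * ‖z i‖ ≤ 4 * δ := by
      have h3 : (1 - δ) * (1 - δ) ≤ (1 - δ) * ‖z k‖ :=
        mul_le_mul_of_nonneg_left (by linarith) (by linarith)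
      by_cases h5 : 1 - 2 * δ ≤ 0
      · have : 1 - (1 - δ) * ‖z k‖ * ‖z i‖ ≤ 1 := by linarith
        linarith
      · push Not at h5
        have h6 : (1 - δ) * (1 - δ) * (1 - 2 * δ) ≤ (1 - δ) * ‖z k‖ * ‖z i‖ := by
          apply mul_le_mul h3 (by linarith) h5.le
          have : 0 ≤ 1 - δ := by linarith
          positivity
        have h7 : (1 - δ) * (1 - δ) * (1 - 2 * δ) = 1 - 4 * δ + δ ^ 2 * (5 - 2 * δ) := by ring
        have h8 : 0 ≤ δ ^ 2 * (5 - 2 * δ) := mul_nonneg (by positivity) (by linarith)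
        linarith
    rw [Real.norm_of_nonneg p1, Real.norm_of_nonneg (by linarith)]
    have p4 : (1 - δ) * ‖z k‖ * ‖z i‖ * ‖z i / ‖z i‖ - z k / ‖z k‖‖ ≤ 1 * (3 * δ) :=
      mul_le_mul p2 he (norm_nonneg _) zero_le_one
    linarith
  have hnum : δ ≤ 1 - (1 - δ) ^ 2 * ‖z k * starRingEnd ℂ (z i)‖ ^ 2 := by
    have h3 : ‖z k * starRingEnd ℂ (z i)‖ ^ 2 ≤ 1 := pow_le_one₀ (norm_nonneg _) hx
    have h4 : (1 - δ) ^ 2 * ‖z k * starRingEnd ℂ (z i)‖ ^ 2 ≤ (1 - δ) ^ 2 * 1 :=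
      mul_le_mul_of_nonneg_left h3 (by positivity)
    nlinarith
  unfold pf
  rw [div_le_div_iff₀ (by positivity) (by positivity)]
  have h5 : ‖1 - ((1 - δ : ℝ) : ℂ) * (z k * starRingEnd ℂ (z i))‖ ^ 2 ≤ (7 * δ) ^ 2 :=
    pow_le_pow_left₀ (norm_nonneg _) hup 2
  have h6 : δ * (49 * δ) ≤ (1 - (1 - δ) ^ 2 * ‖z k * starRingEnd ℂ (z i)‖ ^ 2) * (49 * δ) :=
    mul_le_mul_of_nonneg_right hnum (by positivity)
  nlinarith

variable (hF : ∀ w : ℂ, ‖w‖ = 1 → ∏ i, ‖1 - w * starRingEnd ℂ (z i)‖ ≤ Real.exp L)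

include hF

/-- the bound for `PS` -/
theorem PS_le {a : ℂ} (ha : ‖a‖ ≤ 1) {δ M : ℝ} (h0 : 0 < δ) (h2 : δ ≤ 1 / 2)
    (hM : V z L ((1 - δ : ℝ) * a) ≤ M * δ * Fintype.card ι) :
    PS z δ a ≤ (24 * M + 4) * Fintype.card ι := by
  have h3 := V_low (L := L) hz ha h0 h2
  have h4 := V_radial hz hF ha (δ' := δ / 2) (δ := δ) (by linarith) (by linarith) (by linarith)
  have e : (δ / (δ / 2)) ^ 2 = 4 := by
    field_simp
    norm_num
  rw [e] at h4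
  have h5 : δ / 8 * PS z δ a ≤ δ / 8 * ((24 * M + 4) * Fintype.card ι) := by nlinarith
  exact le_of_mul_le_mul_left h5 (by linarith)

end

end H82.LB
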