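import Pool.Agent.H82.LB.D4

/-!
# D5: the stopping rule
-/

set_option autoImplicit false

namespace H82.LB

open Metric Real InnerProductSpace

variable {ι : Type*} [Fintype ι]

/-- number of scales -/
def NN (ι : Type*) [Fintype ι] : ℕ := Nat.log 2 (Fintype.card ι) + 1

open Classical in
/-- the scales at which `V` is large -/
noncomputable def DD (z : ι → ℂ) (L : ℝ) (a : ℂ) : Finset ℕ :=
  (Finset.Icc 1 (NN ι)).filter fun k =>
    12 * (1 / 2 : ℝ) ^ k * Fintype.card ι ≤ V z L ((1 - (1 / 2 : ℝ) ^ k : ℝ) * a)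

open Classical in
/-- the index of the scale -/
noncomputable def kk (z : ι → ℂ) (L : ℝ) (a : ℂ) : ℕ :=
  if h : (DD z L a).Nonempty then (DD z L a).min' h else NN ι

/-- the scale -/
noncomputable def dl (z : ι → ℂ) (L : ℝ) (a : ℂ) : ℝ := (1 / 2 : ℝ) ^ kk z L a

theorem kk_mem (z : ι → ℂ) (L : ℝ) (a : ℂ) : 1 ≤ kk z L a ∧ kk z L a ≤ NN ι := by
  unfold kk
  split_ifs with h
  · have h1 := (DD z L a).min'_mem h
    have h2 := (Finset.mem_filter.1 h1).1
    exact Finset.mem_Icc.1 h2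
  · exact ⟨Nat.le_add_left _ _, le_rfl⟩

theorem dl_pos (z : ι → ℂ) (L : ℝ) (a : ℂ) : 0 < dl z L a := by
  unfold dl
  positivity

theorem dl_le (z : ι → ℂ) (L : ℝ) (a : ℂ) : dl z L a ≤ 1 / 2 := by
  unfold dl
  have := pow_le_pow_of_le_one (by norm_num : (0 : ℝ) ≤ 1 / 2) (by norm_num) (kk_mem z L a).1
  rwa [pow_one] at this

theorem dl_ge (z : ι → ℂ) (L : ℝ) (a : ℂ) : (1 / 2 : ℝ) ^ NN ι ≤ dl z L a :=
  pow_le_pow_of_le_one (by norm_num : (0 : ℝ) ≤ 1 / 2) (by norm_num) (kk_mem z L a).2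

theorem NN_card [Nonempty ι] : (1 / 2 : ℝ) ^ NN ι * Fintype.card ι ≤ 1 := by
  have h1 : Fintype.card ι < 2 ^ NN ι := Nat.lt_pow_succ_log_self one_lt_two _
  have h2 : (Fintype.card ι : ℝ) < 2 ^ NN ι := by exact_mod_cast h1
  have h3 : (1 / 2 : ℝ) ^ NN ι * 2 ^ NN ι = 1 := by
    rw [← mul_pow]
    norm_num
  have h4 : (0 : ℝ) < (1 / 2 : ℝ) ^ NN ι := by positivity
  nlinarith

/-- at the scale -/
theorem T1 (z : ι → ℂ) (L : ℝ) (a : ℂ) (h : (DD z L a).Nonempty) :
    12 * dl z L a * Fintype.card ι ≤ V z L ((1 - dl z L a : ℝ) * a) := by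
  have h1 := (DD z L a).min'_mem h
  have h2 : kk z L a = (DD z L a).min' h := by
    unfold kk
    rw [dif_pos h]
  rw [← h2] at h1
  exact (Finset.mem_filter.1 h1).2

/-- above the scale -/
theorem T2 (z : ι → ℂ) (L : ℝ) (a : ℂ) (k : ℕ) (h1 : 1 ≤ k) (h2 : k < kk z L a) :
    V z L ((1 - (1 / 2 : ℝ) ^ k : ℝ) * a) ≤ 12 * (1 / 2 : ℝ) ^ k * Fintype.card ι := by
  by_contra hc
  push Not at hc
  have hmem : k ∈ DD z L a := by
    rw [DD, Finset.mem_filter, Finset.mem_Icc]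
    exact ⟨⟨h1, h2.le.trans (kk_mem z L a).2⟩, hc.le⟩
  have hne : (DD z L a).Nonempty := ⟨k, hmem⟩
  have h3 : kk z L a = (DD z L a).min' hne := by
    unfold kk
    rw [dif_pos hne]
  have h4 := (DD z L a).min'_le k hmem
  omega

section

variable {z : ι → ℂ} {L : ℝ} (hz : ∀ i, ‖z i‖ ≤ 1)
    (hF : ∀ w : ℂ, ‖w‖ = 1 → ∏ i, ‖1 - w * starRingEnd ℂ (z i)‖ ≤ Real.exp L) (hL : 0 ≤ L)

include hz hF

theorem T_big {a : ℂ} (ha : ‖a‖ ≤ 1) (h : 2 ≤ kk z L a) :
    V z L ((1 - dl z L a : ℝ) * a) ≤ 96 * dl z L a * Fintype.card ι := by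
  obtain ⟨k, hk⟩ : ∃ k, kk z L a = k + 1 := ⟨kk z L a - 1, by omega⟩
  have h1 := T2 z L a k (by omega) (by omega)
  have hd : dl z L a = (1 / 2 : ℝ) ^ k / 2 := by
    unfold dl
    rw [hk, pow_succ]
    ring
  have hpos : (0 : ℝ) < (1 / 2 : ℝ) ^ k := by positivity
  have hle : (1 / 2 : ℝ) ^ k ≤ 1 := pow_le_one₀ (by norm_num) (by norm_num)
  have h2 := V_radial hz hF ha (δ' := (1 / 2 : ℝ) ^ k / 2) (δ := (1 / 2 : ℝ) ^ k)
    (by positivity) (by linarith) hle
  have e : ((1 / 2 : ℝ) ^ k / ((1 / 2 : ℝ) ^ k / 2)) ^ 2 = 4 := by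
    field_simp
    norm_num
  rw [e] at h2
  rw [hd]
  linarith

include hL

theorem T3 {a : ℂ} (ha : ‖a‖ ≤ 1) :
    V z L ((1 - dl z L a : ℝ) * a) ≤ 96 * dl z L a * Fintype.card ι + 3 * L := by
  have hd := dl_pos z L a
  rcases Nat.lt_or_ge (kk z L a) 2 with h | h
  · have h1 : kk z L a = 1 := by
      have := (kk_mem z L a).1
      omega
    have h2 : dl z L a = 1 / 2 := by
      unfold dl
      rw [h1, pow_one]
    have h3 := V_center hz hF (w := ((1 - dl z L a : ℝ) : ℂ) * a) (by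
      rw [norm_mul, Complex.norm_real, h2, Real.norm_of_nonneg (by norm_num)]
      linarith) hL
    have : 0 ≤ 96 * dl z L a * Fintype.card ι := by positivity
    linarith
  · have h1 := T_big hz hF ha h
    linarith

omit hL in
theorem T4 {a : ℂ} (ha : ‖a‖ ≤ 1) : PS z (dl z L a) a ≤ 2308 * Fintype.card ι := by
  have hd := dl_pos z L a
  have hc : (0 : ℝ) ≤ Fintype.card ι := Nat.cast_nonneg _
  rcases Nat.lt_or_ge (kk z L a) 2 with h | h
  · have h1 : kk z L a = 1 := by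
      have := (kk_mem z L a).1
      omega
    have h2 : dl z L a = 1 / 2 := by
      unfold dl
      rw [h1, pow_one]
    have h3 := PS_half (z := z) hz ha
    rw [h2]
    linarith
  · have h1 := PS_le hz hF ha hd (dl_le z L a) (T_big hz hF ha h)
    norm_num at h1
    linarith

/-- far points -/
theorem T_far {a : ℂ} (ha : dl z L a < 1 - ‖a‖) :
    V z L a ≤ 216 * (1 - ‖a‖) * Fintype.card ι + 6 * L * (1 - ‖a‖) := by
  have hd := dl_pos z L a
  have hs : 0 < 1 - ‖a‖ := by linarith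
  have hc : (0 : ℝ) ≤ Fintype.card ι := Nat.cast_nonneg _
  rcases le_or_gt (1 - ‖a‖) (1 / 2) with h | h
  · obtain ⟨n, hn1, hn2⟩ := exists_nat_pow_near_of_lt_one (x := 1 - ‖a‖) (y := (1 / 2 : ℝ)) hs
      (by linarith) (by norm_num) (by norm_num)
    have hn0 : 1 ≤ n := by
      by_contra h0
      have : n = 0 := by omega
      rw [this] at hn1
      norm_num at hn1
      linarith
    have hnk : n < kk z L a := by
      by_contra h0
      push Not at h0
      have := pow_le_pow_of_le_one (by norm_num : (0 : ℝ) ≤ 1 / 2) (by norm_num) h0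
      unfold dl at ha
      linarith
    have h1 := T2 z L a n hn0 hnk
    have h2 : (1 / 2 : ℝ) ^ n ≤ 2 * (1 - ‖a‖) := by
      rw [pow_succ] at hn1
      linarith
    have h3 := V_far hz hF (a := a) (by linarith) (δ := (1 / 2 : ℝ) ^ n) (by positivity)
      (pow_le_one₀ (by norm_num) (by norm_num)) h2
    have h4 : 12 * (1 / 2 : ℝ) ^ n * Fintype.card ι ≤ 12 * (2 * (1 - ‖a‖)) * Fintype.card ι := by
      gcongr
    have h5 : 0 ≤ 6 * L * (1 - ‖a‖) := by positivity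
    linarith
  · have h3 := V_center hz hF (w := a) (by linarith) hL
    have h5 : 0 ≤ 216 * (1 - ‖a‖) * Fintype.card ι := by positivity
    nlinarith

/-- near points -/
theorem T_near {a : ℂ} (ha : ‖a‖ ≤ 1) {ε : ℝ} (h0 : 0 < ε) (h1 : ε ≤ 1 / 2) :
    V z L ((1 - ε * dl z L a : ℝ) * a) ≤ dl z L a * Fintype.card ι *
      (96 + 6924 * Real.log (1 + 1 / ε)) + 3 * L := by
  have hd := dl_pos z L a
  have h2 := V_up (L := L) hz ha (δ' := ε * dl z L a) (δ := dl z L a) (by positivity)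
    (by nlinarith) (dl_le z L a)
  have e : dl z L a / (ε * dl z L a) = 1 / ε := by
    field_simp
  rw [e] at h2
  have h3 := T3 hz hF hL ha
  have h4 := T4 hz hF ha
  have h5 : 0 ≤ Real.log (1 + 1 / ε) := by
    apply Real.log_nonneg
    have : 0 < 1 / ε := by positivity
    linarith
  have h6 : 3 * dl z L a * Real.log (1 + 1 / ε) * PS z (dl z L a) a ≤
      3 * dl z L a * Real.log (1 + 1 / ε) * (2308 * Fintype.card ι) :=
    mul_le_mul_of_nonneg_left h4 (by positivity)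
  nlinarith

end

end H82.LB
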