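import Pool.Agent.H82.LB.D4

/-!
# W1: the Poisson integral of `|log |F||` over the unit circle
-/

set_option autoImplicit false

namespace H82.LB

open Metric Real InnerProductSpace

section one

theorem fac_an (a : ℂ) : AnalyticOnNhd ℂ (fun v : ℂ => 1 - v * starRingEnd ℂ a) Set.univ := by
  intro x _
  fun_prop

theorem fac_int (a : ℂ) : CircleIntegrable (fun v : ℂ => Real.log ‖1 - v * starRingEnd ℂ a‖) 0 1 :=
  MeromorphicOn.circleIntegrable_log_norm (f := fun v : ℂ => 1 - v * starRingEnd ℂ a)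
    ((fac_an a).mono (Set.subset_univ _)).meromorphicOn

theorem pk_cont {w : ℂ} (hw : ‖w‖ < 1) : ContinuousOn (poissonKernel 0 w) (sphere (0 : ℂ) |1|) := by
  have e : poissonKernel 0 w = fun z : ℂ => (‖z - 0‖ ^ 2 - ‖w - 0‖ ^ 2) /
      ‖(z - 0) - (w - 0)‖ ^ 2 := by
    ext z
    rw [poissonKernel_def]
  rw [e]
  apply ContinuousOn.div
  · fun_prop
  · fun_prop
  · intro z hz
    rw [abs_one] at hz
    have := pk_pos hw (by simpa using hz)
    simp only [sub_zero]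
    positivity

theorem pk_int {w : ℂ} (hw : ‖w‖ < 1) {g : ℂ → ℝ} (hg : CircleIntegrable g 0 1) :
    CircleIntegrable (fun v => poissonKernel 0 w v * g v) 0 1 :=
  hg.continuousOn_mul (pk_cont hw)

theorem pk_nonneg {w v : ℂ} (hw : ‖w‖ < 1) (hv : ‖v‖ = 1) : 0 ≤ poissonKernel 0 w v := by
  rw [poissonKernel_def]
  simp only [sub_zero]
  apply div_nonneg
  · rw [hv]
    nlinarith [norm_nonneg w]
  · positivity

theorem fac_poisson {a w : ℂ} (ha : ‖a‖ ≤ 1) (hw : ‖w‖ < 1) :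
    Real.circleAverage (fun v => poissonKernel 0 w v * Real.log ‖1 - v * starRingEnd ℂ a‖) 0 1 =
      Real.log ‖1 - w * starRingEnd ℂ a‖ := by
  rcases eq_or_lt_of_le ha with h | h
  · have e : ∀ v : ℂ, ‖1 - v * starRingEnd ℂ a‖ = ‖v - a‖ := by
      intro v
      have h1 : a * starRingEnd ℂ a = 1 := by
        rw [Complex.mul_conj, Complex.normSq_eq_norm_sq, h]
        simp
      have h2 : 1 - v * starRingEnd ℂ a = -((v - a) * starRingEnd ℂ a) := by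
        rw [sub_mul, h1]
        ring
      rw [h2, norm_neg, norm_mul, RCLike.norm_conj, h, mul_one]
    simp only [e]
    have h3 := circleAverage_re_herglotzRieszKernel_mul_log₀ (w := w) (ρ := a) (R := 1)
      (by simpa using h) (by simpa using hw)
    rw [← poissonKernel_eq_re_herglotzRieszKernel] at h3
    exact h3
  · have hh : HarmonicOnNhd (fun v : ℂ => Real.log ‖1 - v * starRingEnd ℂ a‖)
        (closedBall 0 1) := by
      intro v hv
      apply AnalyticAt.harmonicAt_log_norm (by fun_prop)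
      intro h0
      have h1 : v * starRingEnd ℂ a = 1 := (sub_eq_zero.1 h0).symm
      have h2 : ‖v‖ * ‖a‖ = 1 := by
        have := congrArg norm h1
        rwa [norm_mul, RCLike.norm_conj, norm_one] at this
      have h3 : ‖v‖ ≤ 1 := by simpa using hv
      nlinarith [norm_nonneg v, norm_nonneg a]
    exact hh.circleAverage_poissonKernel_smul (by simpa using hw)

end one

variable {ι : Type*} [Fintype ι]

/-- `log |F|` -/
noncomputable def hs (z : ι → ℂ) (w : ℂ) : ℝ := ∑ j, Real.log ‖1 - w * starRingEnd ℂ (z j)‖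

/-- the Poisson integral of `|log |F||` -/
noncomputable def WW (z : ι → ℂ) (w : ℂ) : ℝ :=
  Real.circleAverage (fun v => poissonKernel 0 w v * |hs z v|) 0 1

theorem hs_int (z : ι → ℂ) : CircleIntegrable (hs z) 0 1 :=
  CircleIntegrable.fun_sum _ fun j _ => fac_int (z j)

theorem hs_poisson {z : ι → ℂ} (hz : ∀ i, ‖z i‖ ≤ 1) {w : ℂ} (hw : ‖w‖ < 1) :
    Real.circleAverage (fun v => poissonKernel 0 w v * hs z v) 0 1 = hs z w := by
  have e : (fun v => poissonKernel 0 w v * hs z v) =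
      fun v => ∑ j, poissonKernel 0 w v * Real.log ‖1 - v * starRingEnd ℂ (z j)‖ := by
    ext v
    rw [hs, Finset.mul_sum]
  rw [e, circleAverage_fun_sum fun j _ => pk_int hw (fac_int (z j))]
  exact Finset.sum_congr rfl fun j _ => fac_poisson (hz j) hw

theorem abs_hs_le {z : ι → ℂ} (hz : ∀ i, ‖z i‖ ≤ 1) {w : ℂ} (hw : ‖w‖ < 1) :
    |hs z w| ≤ WW z w := by
  rw [← hs_poisson hz hw]
  refine abs_circleAverage_le_circleAverage_abs.trans (le_of_eq ?_)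
  apply circleAverage_congr_sphere
  intro v hv
  rw [abs_one] at hv
  have := pk_nonneg hw (v := v) (by simpa using hv)
  simp only [Pi.abs_apply, abs_mul]
  rw [abs_of_nonneg this]

theorem WW_nonneg {z : ι → ℂ} (hz : ∀ i, ‖z i‖ ≤ 1) {w : ℂ} (hw : ‖w‖ < 1) : 0 ≤ WW z w :=
  (abs_nonneg _).trans (abs_hs_le hz hw)

theorem WW_hn (z : ι → ℂ) {w₁ w₂ : ℂ} (h₁ : ‖w₁‖ < 1) (h₂ : ‖w₂‖ < 1) (h12 : ‖w₂‖ ≤ ‖w₁‖)
    (k : ℝ) (_hk0 : 0 ≤ k) (hk : ‖w₁ - w₂‖ ≤ k * (1 - ‖w₁‖)) :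
    WW z w₁ ≤ (1 + k) ^ 2 * WW z w₂ := by
  unfold WW
  rw [← smul_eq_mul, ← circleAverage_fun_smul]
  apply circleAverage_mono (pk_int h₁ (hs_int z).abs)
  · exact (pk_int h₂ (hs_int z).abs).const_smul
  · intro v hv
    rw [abs_one] at hv
    have hv1 : ‖v‖ = 1 := by simpa using hv
    simp only [smul_eq_mul]
    rw [← mul_assoc]
    apply mul_le_mul_of_nonneg_right _ (abs_nonneg _)
    refine (pk_le h₁ h₂ hv1).trans ?_
    apply mul_le_mul_of_nonneg_right _ (pk_nonneg h₂ hv1)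
    have q2 : 0 < 1 ^ 2 - ‖w₂‖ ^ 2 := by nlinarith [norm_nonneg w₂]
    have q1 : 0 < 1 ^ 2 - ‖w₁‖ ^ 2 := by nlinarith [norm_nonneg w₁]
    have h3 : (1 ^ 2 - ‖w₁‖ ^ 2) / (1 ^ 2 - ‖w₂‖ ^ 2) ≤ 1 := by
      rw [div_le_one q2]
      nlinarith [norm_nonneg w₁, norm_nonneg w₂]
    have h4 : ‖w₁ - w₂‖ / (1 - ‖w₁‖) ≤ k := by
      rw [div_le_iff₀ (by linarith)]
      exact hk
    have h5 : 0 ≤ ‖w₁ - w₂‖ / (1 - ‖w₁‖) := by
      apply div_nonneg (norm_nonneg _)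
      linarith
    have h6 : (1 + ‖w₁ - w₂‖ / (1 - ‖w₁‖)) ^ 2 ≤ (1 + k) ^ 2 :=
      pow_le_pow_left₀ (by linarith) (by linarith) 2
    have h7 : 0 ≤ (1 + ‖w₁ - w₂‖ / (1 - ‖w₁‖)) ^ 2 := by positivity
    calc _ ≤ 1 * (1 + ‖w₁ - w₂‖ / (1 - ‖w₁‖)) ^ 2 := mul_le_mul_of_nonneg_right h3 h7
      _ ≤ (1 + k) ^ 2 := by rw [one_mul]; exact h6

theorem WW_zero (z : ι → ℂ) : WW z 0 = Real.circleAverage (fun v => |hs z v|) 0 1 := by
  unfold WW
  apply circleAverage_congr_sphere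
  intro v hv
  rw [abs_one] at hv
  have hv1 : ‖v‖ = 1 := by simpa using hv
  simp only [poissonKernel_def, sub_zero, hv1, norm_zero]
  norm_num

/-- the radial Harnack inequality -/
theorem W_radial (z : ι → ℂ) {a : ℂ} (ha : ‖a‖ ≤ 1) {δ' δ : ℝ} (h0 : 0 < δ') (h1 : δ' ≤ δ)
    (h2 : δ ≤ 1) :
    WW z ((1 - δ' : ℝ) * a) ≤ (δ / δ') ^ 2 * WW z ((1 - δ : ℝ) * a) := by
  have n1 : ‖((1 - δ' : ℝ) : ℂ) * a‖ = (1 - δ') * ‖a‖ := by
    rw [norm_mul, Complex.norm_real, Real.norm_of_nonneg (by linarith)]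
  have n2 : ‖((1 - δ : ℝ) : ℂ) * a‖ = (1 - δ) * ‖a‖ := by
    rw [norm_mul, Complex.norm_real, Real.norm_of_nonneg (by linarith)]
  have na := norm_nonneg a
  have h := WW_hn z (w₁ := ((1 - δ' : ℝ) : ℂ) * a) (w₂ := ((1 - δ : ℝ) : ℂ) * a)
    (by rw [n1]; nlinarith) (by rw [n2]; nlinarith) (by rw [n1, n2]; nlinarith)
    (δ / δ' - 1) (by rw [sub_nonneg, le_div_iff₀ h0]; linarith) (by
      have e : ((1 - δ' : ℝ) : ℂ) * a - ((1 - δ : ℝ) : ℂ) * a = ((δ - δ' : ℝ) : ℂ) * a := by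
        push_cast
        ring
      rw [e, norm_mul, Complex.norm_real, Real.norm_of_nonneg (by linarith), n1]
      have h3 : (δ / δ' - 1) * δ' = δ - δ' := by
        field_simp
      have h4 : 0 ≤ δ / δ' - 1 := by rw [sub_nonneg, le_div_iff₀ h0]; linarith
      calc (δ - δ') * ‖a‖ ≤ (δ - δ') * 1 := by gcongr
        _ = (δ / δ' - 1) * δ' := by rw [h3, mul_one]
        _ ≤ (δ / δ' - 1) * (1 - (1 - δ') * ‖a‖) := by
          apply mul_le_mul_of_nonneg_left _ h4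
          nlinarith)
  have e : 1 + (δ / δ' - 1) = δ / δ' := by ring
  rwa [e] at h

/-- far points -/
theorem W_far (z : ι → ℂ) {a : ℂ} (ha : ‖a‖ < 1) {δ : ℝ} (h0 : 0 ≤ δ) (h1 : δ ≤ 1)
    (h2 : δ ≤ 2 * (1 - ‖a‖)) :
    WW z a ≤ 9 * WW z ((1 - δ : ℝ) * a) := by
  have n2 : ‖((1 - δ : ℝ) : ℂ) * a‖ = (1 - δ) * ‖a‖ := by
    rw [norm_mul, Complex.norm_real, Real.norm_of_nonneg (by linarith)]
  have na := norm_nonneg a
  have h := WW_hn z (w₁ := a) (w₂ := ((1 - δ : ℝ) : ℂ) * a) ha (by rw [n2]; nlinarith)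
    (by rw [n2]; nlinarith) 2 (by norm_num) (by
      have e : a - ((1 - δ : ℝ) : ℂ) * a = ((δ : ℝ) : ℂ) * a := by
        push_cast
        ring
      rw [e, norm_mul, Complex.norm_real, Real.norm_of_nonneg h0]
      nlinarith)
  norm_num at h
  exact_mod_cast h

/-- Harnack from the centre -/
theorem W_center {z : ι → ℂ} (hz : ∀ i, ‖z i‖ ≤ 1) {w : ℂ} (hw : ‖w‖ ≤ 1 / 2) :
    WW z w ≤ 3 * WW z 0 := by
  have hw1 : ‖w‖ < 1 := by linarith
  have h0 : ‖(0 : ℂ)‖ < 1 := by simp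
  have key : WW z w ≤ ((1 - ‖w‖ ^ 2) / (1 - ‖(0 : ℂ)‖ ^ 2) *
      (1 + ‖w - 0‖ / (1 - ‖w‖)) ^ 2) * WW z 0 := by
    unfold WW
    rw [← smul_eq_mul, ← circleAverage_fun_smul]
    apply circleAverage_mono (pk_int hw1 (hs_int z).abs)
    · exact (pk_int h0 (hs_int z).abs).const_smul
    · intro v hv
      rw [abs_one] at hv
      have hv1 : ‖v‖ = 1 := by simpa using hv
      simp only [smul_eq_mul]
      rw [← mul_assoc]
      apply mul_le_mul_of_nonneg_right _ (abs_nonneg _)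
      have := pk_le hw1 h0 hv1
      rwa [one_pow] at this
  refine key.trans ?_
  apply mul_le_mul_of_nonneg_right _ (WW_nonneg hz h0)
  rw [sub_zero, norm_zero]
  have h1 : (0 : ℝ) < 1 - ‖w‖ := by linarith
  have e : (1 - ‖w‖ ^ 2) / (1 - 0 ^ 2) * (1 + ‖w‖ / (1 - ‖w‖)) ^ 2 = (1 + ‖w‖) / (1 - ‖w‖) := by
    field_simp
    ring
  rw [e, div_le_iff₀ h1]
  linarith

end H82.LB
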