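import Pool.Agent.H82.LB.W1

/-!
# W2: the value at the centre, the integral form
-/

set_option autoImplicit false

namespace H82.LB

open Metric Real InnerProductSpace

variable {ι : Type*} [Fintype ι]

theorem ww_zero_le {z : ι → ℂ} (hz : ∀ i, ‖z i‖ ≤ 1) {L : ℝ}
    (hF : Real.circleAverage (fun w => Real.posLog (∏ i, ‖1 - w * starRingEnd ℂ (z i)‖)) 0 1 ≤ L) :
    WW z 0 ≤ 2 * L := by
  classical
  have hmer : MeromorphicOn (fun w : ℂ => ∏ i, (1 - w * starRingEnd ℂ (z i))) (sphere 0 |1|) := by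
    apply AnalyticOnNhd.meromorphicOn
    intro x _
    fun_prop
  have hpint := hmer.circleIntegrable_posLog_norm
  have e0 : (fun w : ℂ => Real.posLog (∏ i, ‖1 - w * starRingEnd ℂ (z i)‖)) =
      fun w : ℂ => Real.posLog ‖∏ i, (1 - w * starRingEnd ℂ (z i))‖ := by
    ext w
    rw [norm_prod]
  rw [e0] at hF
  rw [WW_zero]
  have e1 : Real.circleAverage (fun v => |hs z v|) 0 1 =
      Real.circleAverage (fun v => 2 * Real.posLog ‖∏ i, (1 - v * starRingEnd ℂ (z i))‖ - hs z v)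
        0 1 := by
    apply circleAverage_congr_codiscreteWithin _ one_ne_zero
    have hfin : (Finset.univ.image fun j => (starRingEnd ℂ (z j))⁻¹ : Set ℂ).Finite :=
      Finset.finite_toSet _
    have hmem : (Finset.univ.image fun j => (starRingEnd ℂ (z j))⁻¹ : Set ℂ)ᶜ ∈
        Filter.codiscreteWithin (sphere (0 : ℂ) |1|) := by
      rw [codiscreteWithin_iff_locallyFiniteComplementWithin]
      intro x _
      refine ⟨Set.univ, Filter.univ_mem, ?_⟩
      apply hfin.subset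
      intro y hy
      by_contra h
      exact hy.2.2 h
    filter_upwards [hmem] with v hv
    have hne : ∀ j, (1 - v * starRingEnd ℂ (z j)) ≠ 0 := by
      intro j h
      apply hv
      have h1 : v * starRingEnd ℂ (z j) = 1 := (sub_eq_zero.1 h).symm
      have h2 : v = (starRingEnd ℂ (z j))⁻¹ := eq_inv_of_mul_eq_one_left h1
      rw [h2]
      simp
    have h3 : Real.log ‖∏ i, (1 - v * starRingEnd ℂ (z i))‖ = hs z v := by
      rw [norm_prod, Real.log_prod fun i _ => norm_ne_zero_iff.2 (hne i)]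
      rfl
    rw [Real.posLog_apply, h3]
    rcases le_total 0 (hs z v) with h | h
    · rw [abs_of_nonneg h, max_eq_right h]
      ring
    · rw [abs_of_nonpos h, max_eq_left h]
      ring
  have e2 : Real.circleAverage (hs z) 0 1 = 0 := by
    have h1 := hs_poisson hz (w := 0) (by simp)
    have h2 : Real.circleAverage (fun v => poissonKernel 0 0 v * hs z v) 0 1 =
        Real.circleAverage (hs z) 0 1 := by
      apply circleAverage_congr_sphere
      intro v hv
      rw [abs_one] at hv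
      have hv1 : ‖v‖ = 1 := by simpa using hv
      simp only [poissonKernel_def, sub_zero, hv1, norm_zero]
      norm_num
    rw [← h2, h1]
    simp [hs]
  rw [e1]
  have e3 := circleAverage_fun_sub (c := 0) (R := 1)
    (f₁ := fun v : ℂ => 2 * Real.posLog ‖∏ i, (1 - v * starRingEnd ℂ (z i))‖) (f₂ := hs z)
    (hpint.const_smul (a := (2 : ℝ))) (hs_int z)
  rw [e3, e2, sub_zero]
  have e4 := circleAverage_fun_smul (c := 0) (R := 1) (a := (2 : ℝ))
    (f := fun v : ℂ => Real.posLog ‖∏ i, (1 - v * starRingEnd ℂ (z i))‖)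
  simp only [smul_eq_mul] at e4
  rw [e4]
  linarith

/-- the boundary function -/
noncomputable def gb (z : ι → ℂ) (θ : ℝ) : ℝ := |hs z (Complex.exp (θ * Complex.I))|

theorem cm_one (θ : ℝ) : circleMap 0 1 θ = Complex.exp (θ * Complex.I) := by
  simp [circleMap]

theorem gb_int (z : ι → ℂ) : IntervalIntegrable (gb z) MeasureTheory.volume 0 (2 * π) := by
  have h : IntervalIntegrable (fun θ : ℝ => |hs z (circleMap 0 1 θ)|) MeasureTheory.volume 0
    (2 * π) := (hs_int z).abs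
  simp only [cm_one] at h
  exact h

theorem gb_mean (z : ι → ℂ) : ∫ θ in (0 : ℝ)..2 * π, gb z θ = 2 * π * WW z 0 := by
  rw [WW_zero, circleAverage_def]
  simp only [cm_one, smul_eq_mul]
  have := Real.pi_pos
  field_simp
  rfl

theorem WW_le_int (z : ι → ℂ) {a : ℂ} (ha0 : a ≠ 0) (ha : ‖a‖ ≤ 1) {δ : ℝ} (h0 : 0 < δ)
    (h1 : δ ≤ 1 / 2) (hk : 1 - ‖a‖ ≤ δ) :
    WW z ((1 - δ : ℝ) * a) ≤
      36 * δ * ((2 * π)⁻¹ * ∫ θ in (0 : ℝ)..2 * π,
        gb z θ / (δ + ‖Complex.exp (θ * Complex.I) - a / ‖a‖‖) ^ 2) := by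
  have hna : 0 < ‖a‖ := norm_pos_iff.2 ha0
  set p : ℂ := ((1 - δ : ℝ) : ℂ) * a with hp
  have np : ‖p‖ = (1 - δ) * ‖a‖ := by
    rw [hp, norm_mul, Complex.norm_real, Real.norm_of_nonneg (by linarith)]
  have hp1 : ‖p‖ ≤ 1 - δ := by
    rw [np]
    nlinarith
  have hp2 : 1 - ‖p‖ ≤ 2 * δ := by
    rw [np]
    have h5 : (1 - δ) * (1 - δ) ≤ (1 - δ) * ‖a‖ :=
      mul_le_mul_of_nonneg_left (by linarith) (by linarith)
    nlinarith
  have hpa : ‖p - a / ‖a‖‖ = 1 - ‖p‖ := by
    have hki : (‖a‖ : ℂ) ≠ 0 := by exact_mod_cast hna.ne'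
    have e : p - a / ‖a‖ = (((1 - δ) * ‖a‖ - 1 : ℝ) : ℂ) * (a / ‖a‖) := by
      rw [hp]
      push_cast
      field_simp
    rw [e, norm_mul, Complex.norm_real, norm_div, Complex.norm_real, norm_norm,
      div_self hna.ne', mul_one, np, Real.norm_eq_abs, abs_of_nonpos (by nlinarith)]
    ring
  have hgint := gb_int z
  have hcont : ContinuousOn (fun θ : ℝ => ((δ + ‖Complex.exp (θ * Complex.I) - a / ‖a‖‖) ^ 2)⁻¹)
      (Set.uIcc 0 (2 * π)) := by
    apply ContinuousOn.inv₀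
    · fun_prop
    · intro θ _
      positivity
  have hint2 := hgint.mul_continuousOn hcont
  have hWdef : WW z p = (2 * π)⁻¹ * ∫ θ in (0 : ℝ)..2 * π,
      poissonKernel 0 p (Complex.exp (θ * Complex.I)) * gb z θ := by
    rw [WW, circleAverage_def]
    simp only [cm_one, smul_eq_mul]
    rfl
  rw [hWdef, mul_left_comm]
  apply mul_le_mul_of_nonneg_left _ (by positivity)
  rw [← intervalIntegral.integral_const_mul]
  have hint1 : IntervalIntegrable (fun θ : ℝ =>
      poissonKernel 0 p (Complex.exp (θ * Complex.I)) * gb z θ) MeasureTheory.volume 0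
      (2 * π) := by
    have h : IntervalIntegrable (fun θ : ℝ => poissonKernel 0 p (circleMap 0 1 θ) *
      |hs z (circleMap 0 1 θ)|) MeasureTheory.volume 0 (2 * π) :=
      pk_int (by linarith) (hs_int z).abs
    simp only [cm_one] at h
    exact h
  apply intervalIntegral.integral_mono_on (by positivity) hint1
  · exact hint2.const_mul (36 * δ)
  · intro θ _
    set v := Complex.exp (θ * Complex.I) with hv
    have nv : ‖v‖ = 1 := Complex.norm_exp_ofReal_mul_I θ
    have hg0 : 0 ≤ gb z θ := abs_nonneg _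
    have hvp : 1 - ‖p‖ ≤ ‖v - p‖ := by
      rw [← nv]
      exact norm_sub_norm_le _ _
    have hvpos : 0 < ‖v - p‖ := by linarith
    have hdist : δ + ‖v - a / ‖a‖‖ ≤ 3 * ‖v - p‖ := by
      have h3 : ‖v - a / ‖a‖‖ ≤ ‖v - p‖ + ‖p - a / ‖a‖‖ := by
        have : v - a / ‖a‖ = (v - p) + (p - a / ‖a‖) := by ring
        rw [this]
        exact norm_add_le _ _
      linarith
    rw [poissonKernel_def]
    simp only [sub_zero]
    rw [nv]
    have h4 : (1 ^ 2 - ‖p‖ ^ 2) / ‖v - p‖ ^ 2 ≤ 36 * δ / (δ + ‖v - a / ‖a‖‖) ^ 2 := by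
      rw [div_le_div_iff₀ (by positivity) (by positivity)]
      have h5 : (δ + ‖v - a / ‖a‖‖) ^ 2 ≤ (3 * ‖v - p‖) ^ 2 :=
        pow_le_pow_left₀ (by positivity) hdist 2
      have h6 : 1 ^ 2 - ‖p‖ ^ 2 ≤ 4 * δ := by nlinarith [norm_nonneg p]
      have h7 : 0 ≤ 1 ^ 2 - ‖p‖ ^ 2 := by nlinarith [norm_nonneg p]
      calc (1 ^ 2 - ‖p‖ ^ 2) * (δ + ‖v - a / ‖a‖‖) ^ 2
          ≤ (4 * δ) * (3 * ‖v - p‖) ^ 2 := mul_le_mul h6 h5 (by positivity) (by positivity)
        _ = 36 * δ * ‖v - p‖ ^ 2 := by ring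
    calc (1 ^ 2 - ‖p‖ ^ 2) / ‖v - p‖ ^ 2 * gb z θ
        ≤ 36 * δ / (δ + ‖v - a / ‖a‖‖) ^ 2 * gb z θ := mul_le_mul_of_nonneg_right h4 hg0
      _ = _ := by
        field_simp

end H82.LB
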