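import Pool.Agent.H82.LB.W2
import Pool.Agent.H82.LB.D5

/-!
# W3: the stopping rule for the Poisson integral of `|log |F||`
-/

set_option autoImplicit false

namespace H82.LB

open Metric Real InnerProductSpace

variable {ι : Type*} [Fintype ι]

open Classical in
/-- the scales at which `WW` is large -/
noncomputable def DW (z : ι → ℂ) (a : ℂ) : Finset ℕ :=
  (Finset.Icc 1 (NN ι)).filter fun k =>
    12 * (1 / 2 : ℝ) ^ k * Fintype.card ι ≤ WW z ((1 - (1 / 2 : ℝ) ^ k : ℝ) * a)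

open Classical in
/-- the index of the scale -/
noncomputable def kw (z : ι → ℂ) (a : ℂ) : ℕ :=
  if h : (DW z a).Nonempty then (DW z a).min' h else NN ι

/-- the scale -/
noncomputable def dw (z : ι → ℂ) (a : ℂ) : ℝ := (1 / 2 : ℝ) ^ kw z a

theorem kw_mem (z : ι → ℂ) (a : ℂ) : 1 ≤ kw z a ∧ kw z a ≤ NN ι := by
  unfold kw
  split_ifs with h
  · have h1 := (DW z a).min'_mem h
    have h2 := (Finset.mem_filter.1 h1).1
    exact Finset.mem_Icc.1 h2
  · exact ⟨Nat.le_add_left _ _, le_rfl⟩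

theorem dw_pos (z : ι → ℂ) (a : ℂ) : 0 < dw z a := by
  unfold dw
  positivity

theorem dw_le (z : ι → ℂ) (a : ℂ) : dw z a ≤ 1 / 2 := by
  unfold dw
  have := pow_le_pow_of_le_one (by norm_num : (0 : ℝ) ≤ 1 / 2) (by norm_num) (kw_mem z a).1
  rwa [pow_one] at this

/-- at the scale -/
theorem Q1 (z : ι → ℂ) (a : ℂ) (h : (DW z a).Nonempty) :
    12 * dw z a * Fintype.card ι ≤ WW z ((1 - dw z a : ℝ) * a) := by
  have h1 := (DW z a).min'_mem h
  have h2 : kw z a = (DW z a).min' h := by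
    unfold kw
    rw [dif_pos h]
  rw [← h2] at h1
  exact (Finset.mem_filter.1 h1).2

/-- above the scale -/
theorem Q2 (z : ι → ℂ) (a : ℂ) (k : ℕ) (h1 : 1 ≤ k) (h2 : k < kw z a) :
    WW z ((1 - (1 / 2 : ℝ) ^ k : ℝ) * a) ≤ 12 * (1 / 2 : ℝ) ^ k * Fintype.card ι := by
  by_contra hc
  push Not at hc
  have hmem : k ∈ DW z a := by
    rw [DW, Finset.mem_filter, Finset.mem_Icc]
    exact ⟨⟨h1, h2.le.trans (kw_mem z a).2⟩, hc.le⟩
  have hne : (DW z a).Nonempty := ⟨k, hmem⟩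
  have h3 : kw z a = (DW z a).min' hne := by
    unfold kw
    rw [dif_pos hne]
  have h4 := (DW z a).min'_le k hmem
  omega

/-- the trivial bound -/
theorem hs_triv {z : ι → ℂ} (hz : ∀ i, ‖z i‖ ≤ 1) {w : ℂ} (hw : ‖w‖ ≤ 1 / 2) :
    -hs z w ≤ Fintype.card ι := by
  have h : ∑ _j : ι, (-1 : ℝ) ≤ hs z w := by
    refine Finset.sum_le_sum fun j _ => ?_
    have h1 : ‖w * starRingEnd ℂ (z j)‖ ≤ 1 / 2 := by
      rw [norm_mul, RCLike.norm_conj]
      nlinarith [norm_nonneg w, norm_nonneg (z j), hz j]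
    have h2 : (1 / 2 : ℝ) ≤ ‖1 - w * starRingEnd ℂ (z j)‖ := by
      have := norm_sub_norm_le (1 : ℂ) (w * starRingEnd ℂ (z j))
      rw [norm_one] at this
      linarith
    have h3 := Real.log_le_log (by norm_num) h2
    have h4 : Real.log (1 / 2) = -Real.log 2 := by
      rw [one_div, Real.log_inv]
    have h5 := Real.log_two_lt_d9
    linarith
  rw [Finset.sum_const, Finset.card_univ, nsmul_eq_mul] at h
  linarith

section

variable {z : ι → ℂ} (hz : ∀ i, ‖z i‖ ≤ 1)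

include hz

omit hz in
theorem Q_big {a : ℂ} (ha : ‖a‖ ≤ 1) (h : 2 ≤ kw z a) :
    WW z ((1 - dw z a : ℝ) * a) ≤ 96 * dw z a * Fintype.card ι := by
  obtain ⟨k, hk⟩ : ∃ k, kw z a = k + 1 := ⟨kw z a - 1, by omega⟩
  have h1 := Q2 z a k (by omega) (by omega)
  have hd : dw z a = (1 / 2 : ℝ) ^ k / 2 := by
    unfold dw
    rw [hk, pow_succ]
    ring
  have hpos : (0 : ℝ) < (1 / 2 : ℝ) ^ k := by positivity
  have hle : (1 / 2 : ℝ) ^ k ≤ 1 := pow_le_one₀ (by norm_num) (by norm_num)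
  have h2 := W_radial z ha (δ' := (1 / 2 : ℝ) ^ k / 2) (δ := (1 / 2 : ℝ) ^ k)
    (by positivity) (by linarith) hle
  have e : ((1 / 2 : ℝ) ^ k / ((1 / 2 : ℝ) ^ k / 2)) ^ 2 = 4 := by
    field_simp
    norm_num
  rw [e] at h2
  rw [hd]
  linarith

theorem Q3 {a : ℂ} (ha : ‖a‖ ≤ 1) :
    -hs z ((1 - dw z a : ℝ) * a) ≤ 96 * dw z a * Fintype.card ι := by
  have hd := dw_pos z a
  have hc : (0 : ℝ) ≤ Fintype.card ι := Nat.cast_nonneg _
  rcases Nat.lt_or_ge (kw z a) 2 with h | h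
  · have h1 : kw z a = 1 := by
      have := (kw_mem z a).1
      omega
    have h2 : dw z a = 1 / 2 := by
      unfold dw
      rw [h1, pow_one]
    have h3 := hs_triv hz (w := ((1 - dw z a : ℝ) : ℂ) * a) (by
      rw [norm_mul, Complex.norm_real, h2, Real.norm_of_nonneg (by norm_num)]
      linarith)
    rw [h2] at h3 ⊢
    linarith
  · have h1 := Q_big ha h
    have h2 := abs_hs_le hz (w := ((1 - dw z a : ℝ) : ℂ) * a) (by
      rw [norm_mul, Complex.norm_real, Real.norm_of_nonneg (by linarith [dw_le z a])]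
      nlinarith [norm_nonneg a, dw_le z a])
    have h3 := neg_abs_le (hs z (((1 - dw z a : ℝ) : ℂ) * a))
    linarith

/-- the bound for `PS` -/
theorem PS_le' {a : ℂ} (ha : ‖a‖ ≤ 1) {δ M : ℝ} (h0 : 0 < δ) (h2 : δ ≤ 1 / 2)
    (hM : WW z ((1 - δ : ℝ) * a) ≤ M * δ * Fintype.card ι) :
    PS z δ a ≤ (40 * M + 4) * Fintype.card ι := by
  have h3 := V_low (L := 0) hz ha h0 h2
  have h4 := W_radial z ha (δ' := δ / 2) (δ := δ) (by linarith) (by linarith) (by linarith)
  have e : (δ / (δ / 2)) ^ 2 = 4 := by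
    field_simp
    norm_num
  rw [e] at h4
  have na := norm_nonneg a
  have h5 := abs_hs_le hz (w := ((1 - δ / 2 : ℝ) : ℂ) * a) (by
    rw [norm_mul, Complex.norm_real, Real.norm_of_nonneg (by linarith)]
    nlinarith)
  have h6 := abs_hs_le hz (w := ((1 - δ : ℝ) : ℂ) * a) (by
    rw [norm_mul, Complex.norm_real, Real.norm_of_nonneg (by linarith)]
    nlinarith)
  have h7 := neg_abs_le (hs z (((1 - δ / 2 : ℝ) : ℂ) * a))
  have h8 := le_abs_self (hs z (((1 - δ : ℝ) : ℂ) * a))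
  have e1 : V z 0 (((1 - δ / 2 : ℝ) : ℂ) * a) - V z 0 (((1 - δ : ℝ) : ℂ) * a) =
      -hs z (((1 - δ / 2 : ℝ) : ℂ) * a) + hs z (((1 - δ : ℝ) : ℂ) * a) := by
    unfold V hs
    ring
  rw [e1] at h3
  have h9 : δ / 8 * PS z δ a ≤ δ / 8 * ((40 * M + 4) * Fintype.card ι) := by nlinarith
  exact le_of_mul_le_mul_left h9 (by linarith)

theorem Q4 {a : ℂ} (ha : ‖a‖ ≤ 1) : PS z (dw z a) a ≤ 3844 * Fintype.card ι := by
  have hd := dw_pos z a
  have hc : (0 : ℝ) ≤ Fintype.card ι := Nat.cast_nonneg _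
  rcases Nat.lt_or_ge (kw z a) 2 with h | h
  · have h1 : kw z a = 1 := by
      have := (kw_mem z a).1
      omega
    have h2 : dw z a = 1 / 2 := by
      unfold dw
      rw [h1, pow_one]
    have h3 := PS_half (z := z) hz ha
    rw [h2]
    linarith
  · have h1 := PS_le' hz ha hd (dw_le z a) (Q_big ha h)
    norm_num at h1
    linarith

/-- points above the scale -/
theorem Q_above {a : ℂ} (ha : ‖a‖ ≤ 1) {s τ : ℝ} (hs0 : 0 < s) (hs1 : s ≤ 1 / 2)
    (h1 : s ≤ τ) (h2 : 1 - ‖a‖ ≤ τ)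
    (hlow : τ ≤ 1 - (1 - s) * ‖a‖) (ht : dw z a < τ) :
    -hs z ((1 - s : ℝ) * a) ≤ 216 * τ * Fintype.card ι := by
  have hd := dw_pos z a
  have hc : (0 : ℝ) ≤ Fintype.card ι := Nat.cast_nonneg _
  have na := norm_nonneg a
  have np : ‖((1 - s : ℝ) : ℂ) * a‖ = (1 - s) * ‖a‖ := by
    rw [norm_mul, Complex.norm_real, Real.norm_of_nonneg (by linarith)]
  have hp1 : ‖((1 - s : ℝ) : ℂ) * a‖ < 1 := by
    rw [np]
    nlinarith
  rcases le_or_gt τ (1 / 2) with h | h
  · obtain ⟨n, hn1, hn2⟩ := exists_nat_pow_near_of_lt_one (x := τ) (y := (1 / 2 : ℝ))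
      (by linarith) (by linarith) (by norm_num) (by norm_num)
    have hn0 : 1 ≤ n := by
      by_contra h0
      have : n = 0 := by omega
      rw [this] at hn1
      norm_num at hn1
      linarith
    have hnk : n < kw z a := by
      by_contra h0
      push Not at h0
      have := pow_le_pow_of_le_one (by norm_num : (0 : ℝ) ≤ 1 / 2) (by norm_num) h0
      unfold dw at ht
      linarith
    have h3 := Q2 z a n hn0 hnk
    have h4 : (1 / 2 : ℝ) ^ n ≤ 2 * τ := by
      rw [pow_succ] at hn1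
      linarith
    set δ : ℝ := (1 / 2 : ℝ) ^ n with hδ
    have hδ1 : δ ≤ 1 := pow_le_one₀ (by norm_num) (by norm_num)
    have nq : ‖((1 - δ : ℝ) : ℂ) * a‖ = (1 - δ) * ‖a‖ := by
      rw [norm_mul, Complex.norm_real, Real.norm_of_nonneg (by linarith)]
    have h5 := WW_hn z (w₁ := ((1 - s : ℝ) : ℂ) * a) (w₂ := ((1 - δ : ℝ) : ℂ) * a) hp1
      (by rw [nq]; nlinarith) (by rw [np, nq]; nlinarith) 2 (by norm_num) (by
        have e : ((1 - s : ℝ) : ℂ) * a - ((1 - δ : ℝ) : ℂ) * a = ((δ - s : ℝ) : ℂ) * a := by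
          push_cast
          ring
        rw [e, norm_mul, Complex.norm_real, Real.norm_of_nonneg (by linarith), np]
        nlinarith)
    have h6 := abs_hs_le hz hp1
    have h7 := neg_abs_le (hs z (((1 - s : ℝ) : ℂ) * a))
    have h8 : 12 * δ * Fintype.card ι ≤ 12 * (2 * τ) * Fintype.card ι := by gcongr
    linarith
  · by_cases hh : ‖((1 - s : ℝ) : ℂ) * a‖ ≤ 1 / 2
    · have h3 := hs_triv hz hh
      nlinarith
    · exfalso
      push Not at hh
      rw [np] at hh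
      linarith

/-- near points -/
theorem Q_near {a : ℂ} (ha : ‖a‖ ≤ 1) {s : ℝ} (h0 : 0 < s) (h1 : s ≤ dw z a) :
    -hs z ((1 - s : ℝ) * a) ≤ dw z a * Fintype.card ι *
      (96 + 11532 * Real.log (1 + dw z a / s)) := by
  have hd := dw_pos z a
  have h2 := V_up (L := 0) hz ha (δ' := s) (δ := dw z a) h0 h1 (dw_le z a)
  have e1 : ∀ w, V z 0 w = -hs z w := by
    intro w
    unfold V hs
    ring
  rw [e1, e1] at h2
  have h3 := Q3 hz ha
  have h4 := Q4 hz ha
  have h5 : 0 ≤ Real.log (1 + dw z a / s) := by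
    apply Real.log_nonneg
    have : 0 < dw z a / s := by positivity
    linarith
  have h6 : 3 * dw z a * Real.log (1 + dw z a / s) * PS z (dw z a) a ≤
      3 * dw z a * Real.log (1 + dw z a / s) * (3844 * Fintype.card ι) :=
    mul_le_mul_of_nonneg_left h4 (by positivity)
  nlinarith

end

end H82.LB
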